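import Pool.Agent.R351.GD.GK
import Pool.Agent.R351.GD.S.ValcS

/-!
# Filtered algebras of G-functions at algebraic points

Let `W_0 ⊆ W_1 ⊆ …` be finite-dimensional spaces of power series with `W_D W_(D') ⊆ W_(D + D')`, whose bases form
G-systems. At an algebraic point `x` near the origin the values of the elements of the basis of `W_Δ` are linearly
independent over `ℚ`: a relation could be multiplied by the elements of `W_D`, and the space of the relations between the
values of the elements of `W_(D + Δ)` would be too large.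
-/

set_option autoImplicit false

open PowerSeries

namespace Pool.Agent.J6H76.MS

open Pool.Agent.Y113 Pool.Agent.Y916.Al Pool.Agent.R351.GD

lemma cvc_smul {x : ℂ} {f : ℚ⟦X⟧} (hf : Cvc x f) (c : ℚ) : Cvc x (c • f) ∧ evc x (c • f) = (c : ℂ) * evc x f := by
  have h1 : c • f = C c * f := by rw [smul_eq_C_mul]
  rw [h1]
  refine ⟨(Cvc.C c).mul hf, ?_⟩
  rw [Cvc.ev_mul (Cvc.C c) hf, Pool.Agent.Y916.Al.ev_C]

theorem alg_vals (m A q n₀ : ℕ) (EF : ℕ → ℕ) (hEF : PB EF) (Bs : ℕ → Type) [∀ D, Fintype (Bs D)]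
    (hcard1 : ∀ D, 1 ≤ Fintype.card (Bs D)) (hcard : ∀ D, Fintype.card (Bs D) ≤ (D + 1) ^ n₀) :
    ∃ E : ℕ → ℕ, PB E ∧ ∀ (Δ H : ℕ) (T : Polynomial ℤ) (w : ∀ D, Bs D → ℚ⟦X⟧) (K : IntermediateField ℚ ℂ)
      (x : K) (X : ℝ), FiniteDimensional ℚ K → Module.finrank ℚ K ≤ m → x ≠ 0 → Pt K x X →
      (∀ D, GSys q (((H : ℝ) + 2) ^ EF D) T (w D)) → (∀ D, ∃ i, w D i = 1) →
      (∀ D, LinearIndependent (Polynomial ℚ) (w D)) →
      (∀ D D' i j, w D i * w D' j ∈ Submodule.span ℚ (Set.range (w (D + D')))) →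
      (∀ D i, Cvc (x : ℂ) (w D i)) → Polynomial.aeval (x : ℂ) T ≠ 0 →
      ‖(x : ℂ)‖ * ((H : ℝ) + 2) ^ E Δ ≤ 1 → X * ‖(x : ℂ)‖ ^ A ≤ 1 →
      ∀ c : Bs Δ → ℚ, ∑ i, (c i : ℂ) * evc (x : ℂ) (w Δ i) = 0 → c = 0 := by
  classical
  choose D' hDΔ' hD' using fun Δ : ℕ => exists_D_abs' (fun D => Fintype.card (Bs D)) n₀ Δ (2 * A * m) hcard1 hcard
  obtain ⟨E₂, hE₂p, hE₂⟩ := gk_exp m A q
  have hDp : PB fun Δ => D' Δ + Δ := by
    refine PB.add (PB.of_le ?_ hDΔ') PB.id
    have h1 := (((PB.const (2 * A * m)).mul PB.id).add (PB.const n₀)).add (PB.const 2)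
    have h2 := ((PB.const (4 * n₀)).mul (h1.pow 2)).add (PB.const 1)
    exact (((PB.const (2 * A * m)).mul h2).mul PB.id).add PB.id
  have hNp : PB fun Δ => Fintype.card (Bs (D' Δ + Δ)) :=
    PB.of_le ((hDp.add (PB.const 1)).pow n₀) fun Δ => hcard _
  refine ⟨fun Δ => (EF (D' Δ + Δ) + 1) * E₂ (Fintype.card (Bs (D' Δ + Δ))),
    (((hEF.comp hDp).add (PB.const 1)).mul (hE₂p.comp hNp)), ?_⟩
  intro Δ H T w K x X hK hKd hx0 hPt hG h1 hLI hmul hcv hTx hxE hXA c hc
  have hD := hD' Δ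
  set D := D' Δ
  by_contra hc0
  -- the function
  set f : ℚ⟦X⟧ := ∑ i, c i • w Δ i with hf
  have hLIQ : LinearIndependent ℚ (w Δ) := (hLI Δ).restrict_scalars (by
    intro a b hab
    have h2 : (a • (1 : Polynomial ℚ)) = b • (1 : Polynomial ℚ) := hab
    rw [Polynomial.smul_eq_C_mul, Polynomial.smul_eq_C_mul, mul_one, mul_one] at h2
    exact Polynomial.C_injective h2)
  have hf0 : f ≠ 0 := by
    intro h2
    apply hc0
    funext i
    exact (Fintype.linearIndependent_iff.1 hLIQ) c h2 i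
  have hfc : Cvc (x : ℂ) f := Cvc.sum _ _ fun i _ => (cvc_smul (hcv Δ i) (c i)).1
  have hfe : evc (x : ℂ) f = 0 := by
    rw [hf, Cvc.ev_sum _ _ (fun i _ => (cvc_smul (hcv Δ i) (c i)).1), ← hc]
    exact Finset.sum_congr rfl fun i _ => (cvc_smul (hcv Δ i) (c i)).2
  -- the multiples
  have hmem : ∀ r : Bs D, w D r * f ∈ Submodule.span ℚ (Set.range (w (D + Δ))) := by
    intro r
    rw [hf, Finset.mul_sum]
    refine Submodule.sum_mem _ fun i _ => ?_
    rw [mul_smul_comm]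
    exact Submodule.smul_mem _ _ (hmul D Δ r i)
  choose co hco using fun r => (Submodule.mem_span_range_iff_exists_fun ℚ).1 (hmem r)
  let eqv : Fin (Fintype.card (Bs (D + Δ))) ≃ Bs (D + Δ) := (Fintype.equivFin _).symm
  let eqv' : Fin (Fintype.card (Bs D)) ≃ Bs D := (Fintype.equivFin _).symm
  obtain ⟨e₀, he₀⟩ := h1 (D + Δ)
  have hHB : (1 : ℝ) ≤ (H : ℝ) + 2 := by linarith [(Nat.cast_nonneg H : (0 : ℝ) ≤ H)]
  refine hE₂ (Fintype.card (Bs (D + Δ))) _ T (fun j => w (D + Δ) (eqv j)) (eqv.symm e₀) K x X hK hKd hx0 hPt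
    ((hG (D + Δ)).reindex eqv) ?_ ((hLI (D + Δ)).comp _ eqv.injective) ?_ hXA hTx (Fintype.card (Bs D))
    (fun r j => ((co (eqv' r) (eqv j) : ℚ) : K)) ?_ ?_ ?_
  · rw [Equiv.apply_symm_apply, he₀]
  · refine (mul_le_mul_of_nonneg_left ?_ (norm_nonneg _)).trans hxE
    exact pow_base H _ _
  · -- linear independence of the relations
    rw [Fintype.linearIndependent_iff]
    intro d hd r
    have hLIK := Pool.Agent.Y708.AL.t_ext K (Fintype.card (Bs D)) (fun r => w D (eqv' r))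
      ((hLI D).comp _ eqv'.injective)
    have hF0 : PowerSeries.map (algebraMap ℚ K) f ≠ 0 := by
      intro h2
      apply hf0
      apply PowerSeries.map_injective (algebraMap ℚ K) (algebraMap ℚ K).injective
      rw [h2, map_zero]
    have hco' : ∀ r, PowerSeries.map (algebraMap ℚ K) (w D r) * PowerSeries.map (algebraMap ℚ K) f =
        ∑ j, C (algebraMap ℚ K (co r j)) * PowerSeries.map (algebraMap ℚ K) (w (D + Δ) j) := by
      intro r
      rw [← map_mul, ← hco r, map_sum]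
      refine Finset.sum_congr rfl fun j _ => ?_
      rw [smul_eq_C_mul, map_mul, PowerSeries.map_C]
    have key : (∑ r, C (d r) * PowerSeries.map (algebraMap ℚ K) (w D (eqv' r))) *
        PowerSeries.map (algebraMap ℚ K) f = 0 := by
      rw [Finset.sum_mul]
      have h2 : ∀ r, C (d r) * PowerSeries.map (algebraMap ℚ K) (w D (eqv' r)) * PowerSeries.map (algebraMap ℚ K) f =
          ∑ j, C (d r * algebraMap ℚ K (co (eqv' r) j)) * PowerSeries.map (algebraMap ℚ K) (w (D + Δ) j) := by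
        intro r
        rw [mul_assoc, hco', Finset.mul_sum]
        refine Finset.sum_congr rfl fun j _ => ?_
        rw [map_mul, mul_assoc]
      rw [Finset.sum_congr rfl fun r _ => h2 r, Finset.sum_comm]
      refine Finset.sum_eq_zero fun j _ => ?_
      rw [← Finset.sum_mul, ← map_sum]
      have h3 := congrFun hd (eqv.symm j)
      rw [Finset.sum_apply] at h3
      simp only [Pi.smul_apply, smul_eq_mul, Equiv.apply_symm_apply, Pi.zero_apply] at h3
      have h4 : ∑ r, d r * algebraMap ℚ K (co (eqv' r) j) = 0 := h3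
      rw [h4, map_zero, zero_mul]
    have h5 := (mul_eq_zero.1 key).resolve_right hF0
    have h6 := (Fintype.linearIndependent_iff.1 hLIK) (fun r => Polynomial.C (d r)) (by
      rw [← h5]
      refine Finset.sum_congr rfl fun r _ => ?_
      rw [Algebra.smul_def]
      congr 1
      show ((Polynomial.C (d r) : Polynomial K) : K⟦X⟧) = _
      rw [Polynomial.coe_C]) r
    exact Polynomial.C_eq_zero.1 h6
  · intro r
    have h2 : Cvc (x : ℂ) (w D (eqv' r) * f) := (hcv D _).mul hfc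
    have h3 : evc (x : ℂ) (w D (eqv' r) * f) = 0 := by
      rw [Cvc.ev_mul (hcv D _) hfc, hfe, mul_zero]
    rw [← hco, Cvc.ev_sum _ _ (fun j _ => (cvc_smul (hcv (D + Δ) j) (co (eqv' r) j)).1)] at h3
    rw [← h3, ← Equiv.sum_comp eqv]
    refine Finset.sum_congr rfl fun j _ => ?_
    rw [(cvc_smul (hcv (D + Δ) (eqv j)) (co (eqv' r) (eqv j))).2]
    congr 1
  · exact hD

end Pool.Agent.J6H76.MS
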