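import Pool.Agent.Y124.TH.Ca
import Pool.Agent.R351.GD.PB

/-!
# The truncated transcendence degree from independent numbers, with explicit bounds

The theorems `Pool.Agent.Y124.TD.gr_max`, `Pool.Agent.Y124.TG.gr_algs2` and `Pool.Agent.Y124.TH.core_abs` of the starting library with bounds which
are polynomial in the degree; their proofs are repeated here in order to record the bounds.
-/

set_option autoImplicit false

open Module Finset

namespace Pool.Agent.J6H76.MS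

open Pool.Agent.Y124.TD Pool.Agent.Y124.TG Pool.Agent.R351.GD

/-- the whole family has the growth of a maximal independent subfamily -/
theorem gr_max_ex (c e₀ δ n : ℕ) (K : IntermediateField ℚ ℂ) (W : Submodule K ℂ) (h1 : (1 : ℂ) ∈ W) (h : GR c e₀ W)
    (ι : Type) [Fintype ι] (hn : Fintype.card ι = n) (z : ι → ℂ) (e : ℕ) (σ : Fin e → ι) (hen : e ≤ Fintype.card ι)
    (hLI : LIb K δ (fun i => z (σ i)))
    (hmax : ∀ a, a ∉ Set.range σ → ¬ LIb K δ (Fin.cons (z a) (fun i => z (σ i)) : Fin (e + 1) → ℂ)) :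
      ∃ W' : Submodule K ℂ, W ≤ W' ∧ (∀ a, z a ∈ W') ∧
        GR (((δ + 1) * (1 + δ * n) ^ (e₀ + n)) ^ n * c) (e₀ + e) W' := by
  classical
  set B : ℕ := (δ + 1) * (1 + δ * n) ^ (e₀ + n) with hB
  have hB1 : 1 ≤ B := Nat.one_le_iff_ne_zero.2 (by positivity)
  obtain ⟨W₁, hW₁, hz₁, hG₁⟩ := gr_fam c e e₀ W h1 h (fun i => z (σ i))
  have h11 : (1 : ℂ) ∈ W₁ := hW₁ h1
  have key : ∀ s : Finset ι, ∃ W' : Submodule K ℂ, W₁ ≤ W' ∧ (∀ a ∈ s, z a ∈ W') ∧ GR (B ^ s.card * c) (e₀ + e) W' := by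
    intro s
    induction s using Finset.induction_on with
    | empty =>
      refine ⟨W₁, le_rfl, fun a ha => absurd ha (Finset.notMem_empty _), ?_⟩
      rw [Finset.card_empty, pow_zero, one_mul]
      exact hG₁
    | insert a s ha ih =>
      obtain ⟨W', hW', hz', hG'⟩ := ih
      rw [Finset.card_insert_of_notMem ha]
      by_cases har : a ∈ Set.range σ
      · refine ⟨W', hW', fun b hb => ?_, hG'.mono ?_⟩
        · rcases Finset.mem_insert.1 hb with rfl | hb
          · obtain ⟨i, rfl⟩ := har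
            exact hW' (hz₁ i)
          · exact hz' b hb
        · rw [pow_succ, mul_assoc]
          exact Nat.mul_le_mul_left _ (Nat.le_mul_of_pos_left _ hB1)
      · obtain ⟨m, l, κ, hm, hl0, hl, hκ, hrel⟩ := rel_of_dep h11 hz₁ hLI (hmax a har)
        have h2 := gr_alg (hW' h11) hG' hl0 (mem_pow_le hW' hl) (fun j => mem_pow_le hW' (hκ j)) hrel
        refine ⟨W' ⊔ Submodule.span K {z a}, hW'.trans le_sup_left, fun b hb => ?_, h2.mono ?_⟩
        · rcases Finset.mem_insert.1 hb with rfl | hb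
          · exact Submodule.mem_sup_right (Submodule.mem_span_singleton_self _)
          · exact Submodule.mem_sup_left (hz' b hb)
        · have h3 : (m + 1) * (1 + δ * e) ^ (e₀ + e) ≤ B := by
            refine Nat.mul_le_mul (by omega) ?_
            have h4 : 1 + δ * e ≤ 1 + δ * n := by
              have : δ * e ≤ δ * n := Nat.mul_le_mul_left _ (hn ▸ hen)
              omega
            exact (Nat.pow_le_pow_left h4 _).trans (Nat.pow_le_pow_right (by omega) (by omega))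
          calc (m + 1) * (1 + δ * e) ^ (e₀ + e) * (B ^ s.card * c) ≤ B * (B ^ s.card * c) := Nat.mul_le_mul_right _ h3
            _ = _ := by rw [pow_succ]; ring
  obtain ⟨W', hW', hz', hG'⟩ := key Finset.univ
  rw [Finset.card_univ, hn] at hG'
  exact ⟨W', hW₁.trans hW', fun a => hz' a (Finset.mem_univ _), hG'⟩

/-- several algebraic numbers -/
theorem gr_algs_ex (c e d m₀ n : ℕ) (K : IntermediateField ℚ ℂ) (W : Submodule K ℂ) (h1 : (1 : ℂ) ∈ W) (h : GR c e W)
    (ι : Type) [Fintype ι] (hn : Fintype.card ι = n) (w : ι → ℂ) (hw : ∀ i, ∃ (m : ℕ) (l : ℂ) (κ : ℕ → ℂ), m + 1 ≤ m₀ ∧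
      l ≠ 0 ∧ l ∈ W ^ d ∧ (∀ j, κ j ∈ W ^ d) ∧ l * w i ^ (m + 1) = ∑ j ∈ range (m + 1), κ j * w i ^ j) :
      ∃ W' : Submodule K ℂ, W ≤ W' ∧ (∀ i, w i ∈ W') ∧ GR (((m₀ + 1) * (1 + d) ^ e) ^ n * c) e W' := by
  classical
  set B : ℕ := (m₀ + 1) * (1 + d) ^ e with hB
  have key : ∀ s : Finset ι, ∃ W' : Submodule K ℂ, W ≤ W' ∧ (∀ a ∈ s, w a ∈ W') ∧ GR (B ^ s.card * c) e W' := by
    intro s
    induction s using Finset.induction_on with
    | empty =>
      refine ⟨W, le_rfl, fun a ha => absurd ha (Finset.notMem_empty _), ?_⟩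
      rw [Finset.card_empty, pow_zero, one_mul]
      exact h
    | insert a s ha ih =>
      obtain ⟨W', hW', hz', hG'⟩ := ih
      rw [Finset.card_insert_of_notMem ha]
      obtain ⟨m, l, κ, hm, hl0, hl, hκ, hrel⟩ := hw a
      have h2 := gr_alg (hW' h1) hG' hl0 (mem_pow_le hW' hl) (fun j => mem_pow_le hW' (hκ j)) hrel
      refine ⟨W' ⊔ Submodule.span K {w a}, hW'.trans le_sup_left, fun b hb => ?_, h2.mono ?_⟩
      · rcases Finset.mem_insert.1 hb with rfl | hb
        · exact Submodule.mem_sup_right (Submodule.mem_span_singleton_self _)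
        · exact Submodule.mem_sup_left (hz' b hb)
      · have h3 : (m + 1) * (1 + d) ^ e ≤ B := Nat.mul_le_mul_right _ (by omega)
        calc (m + 1) * (1 + d) ^ e * (B ^ s.card * c) ≤ B * (B ^ s.card * c) := Nat.mul_le_mul_right _ h3
          _ = _ := by rw [pow_succ]; ring
  obtain ⟨W', hW', hz', hG'⟩ := key Finset.univ
  rw [Finset.card_univ, hn] at hG'
  exact ⟨W', hW', fun a => hz' a (Finset.mem_univ _), hG'⟩

/-- more numbers than the growth satisfy a relation of bounded degree -/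
theorem gr_li_ex (c e r d : ℕ) (her : e < r) (K : IntermediateField ℚ ℂ) (W : Submodule K ℂ) (h : GR c e W)
    (j : Type) [Fintype j] (hj : Fintype.card j = r)
    (x : j → ℂ) (p : ℂ) (hp0 : p ≠ 0) (hp : p ∈ W ^ d) (hpx : ∀ i, p * x i ∈ W ^ d) :
      ¬ LinearIndependent ℚ (fun s : j → Fin (c * (d * r + 1) ^ e + 1) => ∏ i, x i ^ (s i : ℕ)) := by
  classical
  set N := c * (d * r + 1) ^ e with hN
  intro hLI
  obtain ⟨q, F, hq, hF, hFd, hFm⟩ := h (d * (r * N))
  have hmem : ∀ s : j → Fin (N + 1), q * (p ^ (r * N) * ∏ i, x i ^ (s i : ℕ)) ∈ F := by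
    intro s
    refine hFm _ ?_
    have h2 : p ^ (r * N) * ∏ i, x i ^ (s i : ℕ) = ∏ i : j, (p ^ (N - (s i : ℕ)) * (p * x i) ^ (s i : ℕ)) := by
      have h3 : p ^ (r * N) = ∏ _i : j, p ^ N := by
        rw [Finset.prod_const, Finset.card_univ, hj, ← pow_mul, mul_comm]
      rw [h3, ← Finset.prod_mul_distrib]
      refine Finset.prod_congr rfl fun i _ => ?_
      have h4 : (s i : ℕ) ≤ N := Nat.lt_succ_iff.1 (s i).2
      rw [mul_pow, ← mul_assoc, ← pow_add, Nat.sub_add_cancel h4]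
    rw [h2]
    have h5 := mem_pow_prod (W := W) Finset.univ (fun _ : j => d * N)
      (fun i => p ^ (N - (s i : ℕ)) * (p * x i) ^ (s i : ℕ)) (by
      intro i _
      have h4 : (s i : ℕ) ≤ N := Nat.lt_succ_iff.1 (s i).2
      have h6 := pow_mem_add (mem_pow_pow hp (N - (s i : ℕ))) (mem_pow_pow (hpx i) (s i : ℕ))
      rwa [← mul_add, Nat.sub_add_cancel h4] at h6)
    rw [Finset.sum_const, Finset.card_univ, hj, smul_eq_mul] at h5
    rwa [show d * (r * N) = r * (d * N) by ring]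
  have hc0 : q * p ^ (r * N) ≠ 0 := mul_ne_zero hq (pow_ne_zero _ hp0)
  have hLI2 : LinearIndependent ℚ (fun s : j → Fin (N + 1) => (⟨_, hmem s⟩ : F)) := by
    apply LinearIndependent.of_comp F.subtype
    have h3 := hLI.map' (LinearMap.mulLeft ℚ (q * p ^ (r * N))) (by
      rw [LinearMap.ker_eq_bot]
      intro a b hab
      exact mul_left_cancel₀ hc0 hab)
    have h5 : (F.subtype ∘ fun s : j → Fin (N + 1) => (⟨_, hmem s⟩ : F)) =
        (LinearMap.mulLeft ℚ (q * p ^ (r * N))) ∘ fun s => ∏ i, x i ^ (s i : ℕ) := by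
      funext s
      simp only [Function.comp_apply, Submodule.subtype_apply, LinearMap.mulLeft_apply]
      ring
    rw [h5]
    exact h3
  have h4 := hLI2.fintype_card_le_finrank
  rw [Fintype.card_fun, Fintype.card_fin, hj] at h4
  have h5 := h4.trans hFd
  have h6 : d * (r * N) + 1 ≤ (d * r + 1) * (N + 1) := by
    have : (d * r + 1) * (N + 1) = d * (r * N) + d * r + N + 1 := by ring
    omega
  have h7 : c * (d * (r * N) + 1) ^ e ≤ N * (N + 1) ^ e := by
    calc c * (d * (r * N) + 1) ^ e ≤ c * ((d * r + 1) * (N + 1)) ^ e := Nat.mul_le_mul_left _ (Nat.pow_le_pow_left h6 _)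
      _ = c * (d * r + 1) ^ e * (N + 1) ^ e := by rw [mul_pow]; ring
      _ = _ := by rw [← hN]
  have h8 : (N + 1) * (N + 1) ^ e ≤ (N + 1) ^ r := by
    rw [← pow_succ']
    exact Nat.pow_le_pow_right (Nat.succ_pos _) her
  have h9 : N * (N + 1) ^ e < (N + 1) * (N + 1) ^ e := Nat.mul_lt_mul_of_pos_right (Nat.lt_succ_self _) (by positivity)
  omega

/-- **The core**, with a bound which is polynomial in the degree -/
theorem core_exp (r s m M : ℕ) (Φ : ℕ → ℕ → ℕ) (hΦ : PB fun c => Φ c (r - s - 1)) : ∃ N : ℕ → ℕ, PB N ∧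
    ∀ (δ : ℕ) (K : IntermediateField ℚ ℂ) [FiniteDimensional ℚ K],
    finrank ℚ K ≤ δ → ∀ (ι : Type) [Fintype ι], Fintype.card ι = M → ∀ z : ι → ℂ,
      ∀ (j : Type) [Fintype j], Fintype.card j = r → ∀ x : j → ℂ,
        (∀ (c e : ℕ) (W₁ : Submodule K ℂ), (1 : ℂ) ∈ W₁ → (∀ x, z x ∈ W₁) → GR c e W₁ →
          ∃ (W₂ : Submodule K ℂ) (p : ℂ), (1 : ℂ) ∈ W₂ ∧ GR (Φ c e) (e + s) W₂ ∧ p ≠ 0 ∧ p ∈ W₂ ^ m ∧ ∀ i, p * x i ∈ W₂ ^ m) →
        LinearIndependent ℚ (fun s : j → Fin (N δ + 1) => ∏ i, x i ^ (s i : ℕ)) →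
        ∃ σ : Fin (r - s) → ι, Function.Injective σ ∧ LIb K δ (fun i => z (σ i)) := by
  classical
  by_cases hk : r ≤ s
  · refine ⟨fun _ => 0, PB.const 0, ?_⟩
    intro δ K _ _ ι _ _ z j _ _ x _ _
    exact libz K δ z (by omega)
  push Not at hk
  have hc₁ : PB fun δ : ℕ => ((δ + 1) * (1 + δ * M) ^ (0 + M)) ^ M * δ :=
    (((PB.id.add (PB.const 1)).mul (((PB.const 1).add (PB.id.mul (PB.const M))).pow (0 + M))).pow M).mul PB.id
  refine ⟨fun δ => Φ (((δ + 1) * (1 + δ * M) ^ (0 + M)) ^ M * δ) (r - s - 1) * (m * r + 1) ^ (r - s - 1 + s),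
    (hΦ.comp hc₁).mul (PB.const _), ?_⟩
  intro δ K _ hK ι _ hι z j _ hj x hz hx
  obtain ⟨e, σ, hσ, hek, hLI, hmax⟩ := exists_max K δ z
  have h1 : r - s ≤ e := by
    by_contra hlt
    push Not at hlt
    have h10 : (1 : ℂ) ∈ (1 : Submodule K ℂ) := Submodule.one_le.1 le_rfl
    obtain ⟨W₁, hW₁, hzW₁, hG₁⟩ := gr_max_ex δ 0 δ M K 1 h10 (gr_one hK) ι hι z e σ hek hLI hmax
    have hG₁' := hG₁.mono_exp (e' := r - s - 1) (by omega)
    obtain ⟨W₂, p, h12, hG₂, hp0, hp, hpz⟩ := hz _ _ W₁ (hW₁ h10) hzW₁ hG₁'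
    exact gr_li_ex _ (r - s - 1 + s) r m (by omega) K W₂ hG₂ j hj x p hp0 hp hpz hx
  exact ⟨fun i => σ (Fin.castLE h1 i), hσ.comp (Fin.castLE_injective h1), hLI.comp (Fin.castLE h1) (Fin.castLE_injective h1)⟩

/-- smaller degrees -/
lemma LIb.mono_deg {K : IntermediateField ℚ ℂ} {δ δ' e : ℕ} (h : δ ≤ δ') {z : Fin e → ℂ} (hz : LIb K δ' z) : LIb K δ z := by
  have h1 : LinearIndependent K (fun s : Fin e → Fin (δ' + 1) => ∏ i, z i ^ (s i : ℕ)) := hz
  have h2 := h1.comp (fun (s : Fin e → Fin (δ + 1)) (i : Fin e) => Fin.castLE (Nat.succ_le_succ h) (s i)) (by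
    intro s s' hs
    funext i
    exact Fin.castLE_injective _ (congrFun hs i))
  exact h2

end Pool.Agent.J6H76.MS
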