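import Pool.Agent.J6H76.MS.InpJ
import Pool.Agent.Y71.SLW.WPC
import Pool.Agent.Y508.J.Mob
import Pool.Agent.Y664.J.FDM

/-!
# The modular invariant near the cusp and the values of the G-functions at complex points
-/

set_option autoImplicit false

open PowerSeries

namespace Pool.Agent.J6H76.MS

open Pool.Agent.Y113 Pool.Agent.Y916.Al Pool.Agent.Y120.K Pool.Agent.Y547.AF
open Pool.Agent.Y120.GH hiding FF
open Pool.Agent.Y120.J (tpi hS hJ FF GG F1 G1 hanc)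
open Pool.Agent.TH21.MS (jj)

lemma coef_FF : coeff 0 FF = 1 := by
  simp [FF, Pool.Agent.Y120.J.fu, Pool.Agent.Y120.J.fa, - coeff_zero_eq_constantCoeff, coeff_mul]

lemma coef_GG : coeff 0 GG = 0 := by
  simp [GG, Pool.Agent.Y120.J.fu, Pool.Agent.Y120.J.fa, Pool.Agent.Y120.J.fb, - coeff_zero_eq_constantCoeff, coeff_mul]

/-- the values of the G-functions at `1 / ξ` and `j`, `j'`, `j''` at a point of large imaginary part -/
theorem link : ∃ (Y : ℝ) (E₁ : ℕ), 1 ≤ Y ∧ ∀ (g : ℕ) (ξ z : ℂ), ((g : ℝ) + 2) ^ E₁ ≤ ‖ξ‖ → Y ≤ z.im → jj z = ξ - g →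
    vC ξ g 0 ≠ 0 ∧ ‖vC ξ g 2‖ ≤ ‖vC ξ g 0‖ ∧ ξ - g ≠ 0 ∧
    deriv jj z = -tpi * (ξ - g) * vC ξ g 0 ^ 2 ∧
    deriv (deriv jj) z = tpi ^ 2 * (ξ - g) * (vC ξ g 0 ^ 4 - 2 * vC ξ g 0 ^ 3 * vC ξ g 1) ∧
    ∃ n : ℤ, tpi * z = Complex.log (1 / ξ) - vC ξ g 2 / vC ξ g 0 + n * tpi := by
  obtain ⟨Y, hY, hanc⟩ := hanc
  obtain ⟨n₀, hn₀⟩ := Pool.Agent.Y606.K.hS_sd true Pool.Agent.Y120.J.hsd 0
  obtain ⟨n₁, hn₁⟩ := Pool.Agent.Y606.K.hS_sd true Pool.Agent.Y120.J.hsd 1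
  obtain ⟨n₂, hn₂⟩ := Pool.Agent.Y606.K.hS_sd true Pool.Agent.Y120.J.hsd 2
  have e0 : hS true 0 = FF := rfl
  have e1 : hS true 1 = GG := rfl
  have e2 : hS true 2 = F1 := rfl
  rw [e0] at hn₀
  rw [e1] at hn₁
  rw [e2] at hn₂
  set A : ℝ := 2 ^ (n₀ + n₁ + n₂) with hA
  have hA1 : 1 ≤ A := one_le_pow₀ (by norm_num)
  have hA0 : 0 < A := by linarith
  have hsz : ∀ (f : ℚ⟦X⟧) (n : ℕ), n ≤ n₀ + n₁ + n₂ → SDp (2 ^ n) f →
      ∀ m, |((coeff m f : ℚ) : ℝ)| ≤ A ^ (m + 1) := by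
    intro f n hn hf m
    refine (hf.1 m).trans (pow_le_pow_left₀ (by positivity) ?_ _)
    exact pow_le_pow_right₀ (by norm_num) hn
  have s0 := hsz FF n₀ (by omega) hn₀
  have s1 := hsz GG n₁ (by omega) hn₁
  have s2 := hsz F1 n₂ (by omega) hn₂
  obtain ⟨c, hc⟩ := exists_nat_ge (16 * A ^ 2 + 16)
  refine ⟨Y, c + 2, hY, fun g ξ z hξ hz hj => ?_⟩
  have hg0 : (0 : ℝ) ≤ g := Nat.cast_nonneg g
  have hbig : (c : ℝ) * ((g : ℝ) + 2) ≤ ‖ξ‖ := by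
    refine le_trans ?_ hξ
    rw [pow_succ]
    refine mul_le_mul_of_nonneg_right ?_ (by linarith)
    have h1 : (c : ℝ) ≤ 2 ^ (c + 1) := by
      have h2 : c < 2 ^ (c + 1) := (Nat.lt_two_pow_self).trans (Nat.pow_lt_pow_right (by norm_num) (Nat.lt_succ_self c))
      exact_mod_cast h2.le
    exact h1.trans (pow_le_pow_left₀ (by norm_num) (by linarith) _)
  have hA2 : A ≤ A ^ 2 := by nlinarith
  have hc16 : (32 : ℝ) ≤ c := by nlinarith
  have hξ0 : 0 < ‖ξ‖ := by nlinarith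
  have hgξ : (c : ℝ) ≤ ‖ξ‖ - g := by nlinarith
  have hgA : (g : ℝ) + A < ‖ξ‖ := by nlinarith
  have hgl : (g : ℝ) < ‖ξ‖ := by linarith
  have hsub : (c : ℝ) ≤ ‖ξ - g‖ := by
    have h1 := norm_sub_norm_le ξ (g : ℂ)
    rw [Complex.norm_natCast] at h1
    linarith
  have hsub0 : ξ - g ≠ 0 := by
    rw [← norm_pos_iff]
    linarith
  -- the values
  have w0 : vC ξ g 0 = evc (1 / (ξ - g)) FF := evc_sf (by linarith) s0 g hgA
  have w1 : vC ξ g 1 = evc (1 / (ξ - g)) F1 := evc_sf (by linarith) s2 g hgA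
  have wG : evc (1 / ξ) (sf g GG) = evc (1 / (ξ - g)) GG := evc_sf (by linarith) s1 g hgA
  have c0 : Cvc (1 / ξ) (sf g FF) := cvc_of_cv (cx_sf_cv (by linarith) s0 g hgA)
  have c1 : Cvc (1 / ξ) (sf g GG) := cvc_of_cv (cx_sf_cv (by linarith) s1 g hgA)
  have cl : Cvc (1 / ξ) (lg g) := cvc_of_cv (Pool.Agent.Y120.GF.lg_cv hgl)
  have w2 : vC ξ g 2 = -(evc (1 / (ξ - g)) GG - evc (1 / (ξ - g)) FF * Complex.log (1 - g / ξ)) := by
    have h1 : vC ξ g 2 = evc (1 / ξ) (-(sf g GG - sf g FF * lg g)) := rfl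
    have h2 : -(sf g GG - sf g FF * lg g) = (-1 : ℚ) • sf g GG + sf g FF * lg g := by
      rw [neg_smul, one_smul]
      ring
    rw [h1, h2, Cvc.ev_add (cvc_smul c1 _).1 (c0.mul cl), (cvc_smul c1 _).2, Cvc.ev_mul c0 cl, evc_lg hgl, wG]
    have h3 : evc (1 / ξ) (sf g FF) = evc (1 / (ξ - g)) FF := w0
    rw [h3]
    push_cast
    ring
  -- the sizes
  have hpt : ‖(1 / (ξ - g) : ℂ)‖ * (2 * A ^ 2) ≤ 1 / 8 := by
    rw [norm_div, norm_one, div_mul_eq_mul_div, one_mul, div_le_iff₀ (by linarith)]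
    linarith
  have hfm : ∀ (f : ℚ⟦X⟧), (∀ m, |((coeff m f : ℚ) : ℝ)| ≤ A ^ (m + 1)) → ∀ m, ‖((coeff m f : ℚ) : ℂ)‖ ≤ A * A ^ m := by
    intro f hf m
    rw [Complex.norm_ratCast, ← pow_succ']
    exact hf m
  have n0 : ‖vC ξ g 0 - 1‖ ≤ 1 / 8 := by
    have h1 := (Pool.Agent.Y71.SLW.evc_near hA1 (hfm FF s0) (z := 1 / (ξ - g)) (by linarith)).trans hpt
    rw [coef_FF, Rat.cast_one, ← w0] at h1
    exact h1
  have n1 : ‖evc (1 / (ξ - g)) GG‖ ≤ 1 / 8 := by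
    have h1 := (Pool.Agent.Y71.SLW.evc_near hA1 (hfm GG s1) (z := 1 / (ξ - g)) (by linarith)).trans hpt
    rw [coef_GG, Rat.cast_zero, sub_zero] at h1
    exact h1
  have nl : ‖Complex.log (1 - g / ξ)‖ ≤ 1 / 8 := by
    have h1 : ‖-((g : ℂ) / ξ)‖ ≤ 1 / 16 := by
      rw [norm_neg, norm_div, Complex.norm_natCast, div_le_iff₀ hξ0]
      nlinarith
    have h2 := Complex.norm_log_one_add_half_le_self (z := -((g : ℂ) / ξ)) (by linarith)
    have h3 : (1 : ℂ) + -((g : ℂ) / ξ) = 1 - g / ξ := by ring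
    rw [h3] at h2
    linarith
  have n0' : ‖vC ξ g 0‖ ≤ 9 / 8 := by
    have h1 := norm_sub_norm_le (vC ξ g 0) 1
    rw [norm_one] at h1
    linarith
  have n0'' : 7 / 8 ≤ ‖vC ξ g 0‖ := by
    have h1 := norm_sub_norm_le (1 : ℂ) (vC ξ g 0)
    rw [norm_one, norm_sub_rev] at h1
    linarith
  have n2 : ‖vC ξ g 2‖ ≤ 1 / 2 := by
    rw [w2, norm_neg]
    refine (norm_sub_le _ _).trans ?_
    rw [norm_mul, ← w0]
    have h1 := mul_le_mul n0' nl (norm_nonneg _) (by norm_num)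
    linarith
  have hv0 : vC ξ g 0 ≠ 0 := by
    rw [← norm_pos_iff]
    linarith
  obtain ⟨q1, q2, q3, q4, q5, q6⟩ := hanc z hz
  have x0 : Pool.Agent.Y120.J.evc FF (1 / jj z) = vC ξ g 0 := by rw [w0, hj]; rfl
  have x1 : Pool.Agent.Y120.J.evc F1 (1 / jj z) = vC ξ g 1 := by rw [w1, hj]; rfl
  have xG : Pool.Agent.Y120.J.evc GG (1 / jj z) = evc (1 / (ξ - g)) GG := by rw [hj]; rfl
  rw [x0, hj] at q4
  rw [x0, x1, hj] at q5
  rw [xG, x0, hj] at q6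
  refine ⟨hv0, by linarith, hsub0, q4, q5, ?_⟩
  have hξ1 : ξ ≠ 0 := norm_pos_iff.1 hξ0
  have h1 : (1 : ℂ) - g / ξ = (ξ - g) / ξ := by field_simp
  have h2 : (1 : ℂ) - g / ξ ≠ 0 := by
    rw [h1]
    exact div_ne_zero hsub0 hξ1
  have h3 : Complex.exp (tpi * z + vC ξ g 2 / vC ξ g 0) = Complex.exp (Complex.log (1 / ξ)) := by
    have h4 : tpi * z + vC ξ g 2 / vC ξ g 0 = (tpi * z - evc (1 / (ξ - g)) GG / vC ξ g 0) + Complex.log (1 - g / ξ) := by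
      rw [w2, ← w0]
      field_simp
      ring
    rw [h4, Complex.exp_add, q6, Complex.exp_log h2, Complex.exp_log (one_div_ne_zero hξ1), h1]
    field_simp
  rw [Complex.exp_eq_exp_iff_exists_int] at h3
  obtain ⟨n, hn⟩ := h3
  refine ⟨n, ?_⟩
  have h5 : (tpi : ℂ) = 2 * Real.pi * Complex.I := rfl
  rw [h5] at hn ⊢
  linear_combination hn

/-- points where `j` is large are equivalent to points of large imaginary part -/
theorem fd_large (Y : ℝ) : ∃ T : ℝ, ∀ z : UpperHalfPlane, T ≤ ‖jj z‖ →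
    ∃ γ : Matrix.SpecialLinearGroup (Fin 2) ℤ, Y ≤ (γ • z : UpperHalfPlane).im ∧
      jj ((γ • z : UpperHalfPlane) : ℂ) = jj z := by
  obtain ⟨B, hB⟩ := Pool.Agent.Y988.J.bound Y
  refine ⟨B + 1, fun z hz => ?_⟩
  obtain ⟨γ, hγ⟩ := ModularGroup.exists_smul_mem_fd z
  have hj : jj ((γ • z : UpperHalfPlane) : ℂ) = jj z := Pool.Agent.Y988.J.jj_inv γ z
  refine ⟨γ, ?_, hj⟩
  by_contra hcon
  push Not at hcon
  have him : 1 / 2 ≤ (γ • z : UpperHalfPlane).im := by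
    have h1 := ModularGroup.three_le_four_mul_im_sq_of_mem_fd hγ
    have h2 := (γ • z : UpperHalfPlane).im_pos
    nlinarith
  have h1 := hB ((γ • z : UpperHalfPlane) : ℂ) hγ.2 him hcon.le
  rw [hj] at h1
  linarith

/-- points of the half-plane `Im z ≥ 1 / 2` where `j` is large have large imaginary part -/
theorem im_large (Y : ℝ) : ∃ T : ℝ, ∀ z : ℂ, 1 / 2 ≤ z.im → T ≤ ‖jj z‖ → Y ≤ z.im := by
  obtain ⟨B, hB⟩ := Pool.Agent.Y988.J.bound Y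
  refine ⟨B + 1, fun z hz hT => ?_⟩
  by_contra hcon
  push Not at hcon
  set n : ℤ := round z.re with hn
  have hz0 : 0 < z.im := by linarith
  set w : UpperHalfPlane := ⟨z, hz0⟩ with hw
  have h1 : ((ModularGroup.T ^ (-n) • w : UpperHalfPlane) : ℂ) = z - n := by
    rw [ModularGroup.coe_T_zpow_smul_eq]
    push_cast
    have : (w : ℂ) = z := rfl
    rw [this]
    ring
  have h2 : jj (z - n) = jj z := by
    rw [← h1]
    exact Pool.Agent.Y988.J.jj_inv _ w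
  have h3 := hB (z - n) (by
    rw [Complex.sub_re, Complex.intCast_re]
    exact abs_sub_round z.re) (by
    rw [Complex.sub_im, Complex.intCast_im, sub_zero]
    exact hz) (by
    rw [Complex.sub_im, Complex.intCast_im, sub_zero]
    exact hcon.le)
  rw [h2] at h3
  linarith

end Pool.Agent.J6H76.MS
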