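import Pool.Agent.J6H76.MS.Free
import Pool.Agent.J6H76.MS.Link
import Pool.Agent.J6H76.MS.Core
import Pool.Agent.J6H76.EW.Any
import Pool.Agent.Y120.J.Pts

/-!
# All points with given invariants in a window of algebraic numbers
-/

set_option autoImplicit false

open Module

namespace Pool.Agent.J6H76.MS

open Pool.Agent.Y113 Pool.Agent.Y916.Al Pool.Agent.R351.GD Pool.Agent.J6H76.EW Pool.Agent.Y124.TD
open Pool.Agent.Y120.J (tpi jt)
open Pool.Agent.TH21.MS (jj)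

/-- polynomials in the values which lie in the field generated by `z`, `j'(z)`, `j''(z)`, `2 π i` and one logarithm -/
noncomputable def xf (v : Fin 3 → ℂ) : Fin 3 → ℂ := ![v 0 ^ 2, v 0 * v 2, v 0 ^ 3 * v 1]

/-- the same as polynomials -/
noncomputable def fX (K : IntermediateField ℚ ℂ) (k : ℕ) (c : Fin k × Fin 3) : MvPolynomial (Fin k × Fin 3) K :=
  (![MvPolynomial.X (c.1, 0) ^ 2, MvPolynomial.X (c.1, 0) * MvPolynomial.X (c.1, 2),
    MvPolynomial.X (c.1, 0) ^ 3 * MvPolynomial.X (c.1, 1)] : Fin 3 → MvPolynomial (Fin k × Fin 3) K) c.2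

lemma fX_eval (K : IntermediateField ℚ ℂ) (k : ℕ) (y : Fin k × Fin 3 → ℂ) (c : Fin k × Fin 3) :
    MvPolynomial.aeval y (fX K k c) = xf (fun i => y (c.1, i)) c.2 := by
  obtain ⟨l, i⟩ := c
  unfold fX xf
  fin_cases i
  · show MvPolynomial.aeval y (MvPolynomial.X (l, 0) ^ 2) = _
    rw [map_pow, MvPolynomial.aeval_X]
    rfl
  · show MvPolynomial.aeval y (MvPolynomial.X (l, 0) * MvPolynomial.X (l, 2)) = _
    rw [map_mul, MvPolynomial.aeval_X, MvPolynomial.aeval_X]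
    rfl
  · show MvPolynomial.aeval y (MvPolynomial.X (l, 0) ^ 3 * MvPolynomial.X (l, 1)) = _
    rw [map_mul, map_pow, MvPolynomial.aeval_X, MvPolynomial.aeval_X]
    rfl

lemma fX_deg (K : IntermediateField ℚ ℂ) (k : ℕ) (c : Fin k × Fin 3) : (fX K k c).totalDegree ≤ 4 := by
  have hX : ∀ i : Fin k × Fin 3, (MvPolynomial.X i : MvPolynomial (Fin k × Fin 3) K).totalDegree ≤ 1 := fun i => by
    rw [MvPolynomial.totalDegree_X]
  have hp : ∀ (i : Fin k × Fin 3) (n : ℕ), (MvPolynomial.X i ^ n : MvPolynomial (Fin k × Fin 3) K).totalDegree ≤ n := by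
    intro i n
    refine (MvPolynomial.totalDegree_pow _ _).trans ?_
    calc n * _ ≤ n * 1 := Nat.mul_le_mul_left _ (hX i)
      _ = n := mul_one n
  obtain ⟨l, i⟩ := c
  unfold fX
  fin_cases i
  · exact (hp _ 2).trans (by norm_num)
  · exact (MvPolynomial.totalDegree_mul _ _).trans ((add_le_add (hX _) (hX _)).trans (by norm_num))
  · exact (MvPolynomial.totalDegree_mul _ _).trans (add_le_add (hp _ 3) (hX _))

/-- preimages -/
lemma xf_surj (u : Fin 3 → ℂ) (h : u 0 ≠ 0) : ∃ v : Fin 3 → ℂ, xf v = u := by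
  obtain ⟨z, hz⟩ := IsAlgClosed.exists_pow_nat_eq (u 0) (show 0 < 2 by norm_num)
  have hz0 : z ≠ 0 := by
    rintro rfl
    rw [zero_pow two_ne_zero] at hz
    exact h hz.symm
  refine ⟨![z, u 2 / z ^ 3, u 1 / z], ?_⟩
  funext i
  fin_cases i
  · show z ^ 2 = u 0
    exact hz
  · show z * (u 1 / z) = u 1
    field_simp
  · show z ^ 3 * (u 2 / z ^ 3) = u 2
    field_simp

lemma map_of_eval {K : IntermediateField ℚ ℂ} {I : Type} [Fintype I] (R : MvPolynomial I K) (i₀ : Finset I)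
    (h : ∀ u : I → ℂ, (∀ i ∈ i₀, u i ≠ 0) → MvPolynomial.aeval u R = 0) : R = 0 := by
  classical
  have h1 : MvPolynomial.map (algebraMap K ℂ) R * ∏ i ∈ i₀, MvPolynomial.X i = 0 := by
    refine MvPolynomial.funext fun u => ?_
    rw [map_mul, map_zero, map_prod, MvPolynomial.eval_map]
    by_cases hu : ∀ i ∈ i₀, u i ≠ 0
    · have h2 := h u hu
      rw [MvPolynomial.aeval_def] at h2
      rw [h2, zero_mul]
    · push Not at hu
      obtain ⟨i, hi, hi0⟩ := hu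
      refine mul_eq_zero_of_right _ (Finset.prod_eq_zero hi ?_)
      rw [MvPolynomial.eval_X, hi0]
  have h2 := (mul_eq_zero.1 h1).resolve_right (Finset.prod_ne_zero_iff.2 fun i _ => MvPolynomial.X_ne_zero _)
  exact MvPolynomial.map_injective _ (algebraMap K ℂ).injective (by rw [h2, map_zero])

lemma fX_dom (K : IntermediateField ℚ ℂ) (k : ℕ) (R : MvPolynomial (Fin k × Fin 3) K)
    (h : MvPolynomial.aeval (fX K k) R = 0) : R = 0 := by
  classical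
  refine map_of_eval R (Finset.univ.image fun l : Fin k => (l, (0 : Fin 3))) fun u hu => ?_
  have h1 : ∀ l : Fin k, ∃ v : Fin 3 → ℂ, xf v = fun i => u (l, i) := fun l =>
    xf_surj _ (hu (l, 0) (Finset.mem_image.2 ⟨l, Finset.mem_univ _, rfl⟩))
  choose v hv using h1
  have h2 := congrArg (MvPolynomial.aeval (fun c : Fin k × Fin 3 => v c.1 c.2)) h
  rw [map_zero, MvPolynomial.comp_aeval_apply] at h2
  rw [← h2]
  congr 2
  funext c
  rw [fX_eval]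
  exact (congrFun (hv c.1) c.2).symm

lemma mul_mem_le {K : IntermediateField ℚ ℂ} {V : Submodule K ℂ} (h1 : (1 : ℂ) ∈ V) {a b c : ℕ} {x y : ℂ}
    (hx : x ∈ V ^ a) (hy : y ∈ V ^ b) (h : a + b ≤ c) : x * y ∈ V ^ c := pow_mem_mono h1 h (pow_mem_add hx hy)

lemma K_mul {K : IntermediateField ℚ ℂ} {V : Submodule K ℂ} {a x : ℂ} (ha : a ∈ K) (hx : x ∈ V) : a * x ∈ V := by
  have h2 : a * x = (⟨a, ha⟩ : K) • x := by
    rw [Algebra.smul_def]
    rfl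
  rw [h2]
  exact Submodule.smul_mem _ _ hx

/-- the polynomials in the values are in a power of the space -/
lemma memV {K : IntermediateField ℚ ℂ} {V : Submodule K ℂ} (h1 : (1 : ℂ) ∈ V) (hpi : tpi ∈ V) {L : ℂ} (hL : L ∈ V)
    {z : UpperHalfPlane} (hz : ∀ i, jt z i ∈ V) (γ : Matrix.SpecialLinearGroup (Fin 2) ℤ) {η : ℂ} (hη : η ≠ 0)
    (hηK : η ∈ K) {v : Fin 3 → ℂ} (hv0 : v 0 ≠ 0)
    (e1 : deriv jj ((γ • z : UpperHalfPlane) : ℂ) = -tpi * η * v 0 ^ 2)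
    (e2 : deriv (deriv jj) ((γ • z : UpperHalfPlane) : ℂ) = tpi ^ 2 * η * (v 0 ^ 4 - 2 * v 0 ^ 3 * v 1))
    (n : ℤ) (e3 : tpi * ((γ • z : UpperHalfPlane) : ℂ) = L - v 2 / v 0 + n * tpi) :
    tpi ^ 2 ∈ V ^ 6 ∧ ∀ i, tpi ^ 2 * xf v i ∈ V ^ 6 := by
  obtain ⟨-, d1, d2, d3, d4⟩ := Pool.Agent.Y508.J.t_mob γ z
  have z0 : (z : ℂ) ∈ V := hz 0
  have z1 : deriv jj z ∈ V := hz 1
  have z2 : deriv (deriv jj) z ∈ V := hz 2
  have hint : ∀ (t : ℤ) {x : ℂ}, x ∈ V → (t : ℂ) * x ∈ V := fun t x hx => K_mul (K.toSubalgebra.intCast_mem t) hx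
  have hint1 : ∀ (t : ℤ), (t : ℂ) ∈ V := fun t => by
    have := hint t h1
    rwa [mul_one] at this
  set u : ℂ := (γ 1 0 : ℂ) * z + γ 1 1 with hu
  set t : ℂ := (γ 0 0 : ℂ) * z + γ 0 1 with ht
  have hu1 : u ∈ V ^ 1 := by
    rw [pow_one]
    exact add_mem (hint _ z0) (hint1 _)
  have ht1 : t ∈ V ^ 1 := by
    rw [pow_one]
    exact add_mem (hint _ z0) (hint1 _)
  have z1' : deriv jj z ∈ V ^ 1 := by rw [pow_one]; exact z1
  have z2' : deriv (deriv jj) z ∈ V ^ 1 := by rw [pow_one]; exact z2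
  have hpi' : tpi ∈ V ^ 1 := by rw [pow_one]; exact hpi
  set w : ℂ := ((γ • z : UpperHalfPlane) : ℂ) with hw
  have hu2 : u ^ 2 ∈ V ^ 2 := by
    rw [pow_two u]
    exact mul_mem_le h1 hu1 hu1 le_rfl
  have hu3 : u ^ 3 ∈ V ^ 3 := by
    rw [pow_succ u]
    exact mul_mem_le h1 hu2 hu1 le_rfl
  have hu4 : u ^ 4 ∈ V ^ 4 := by
    rw [pow_succ u]
    exact mul_mem_le h1 hu3 hu1 le_rfl
  have hp2 : tpi ^ 2 ∈ V ^ 2 := by
    rw [pow_two tpi]
    exact mul_mem_le h1 hpi' hpi' le_rfl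
  have w1 : deriv jj w ∈ V ^ 3 := by
    rw [d1]
    exact mul_mem_le h1 hu2 z1' le_rfl
  have w2 : deriv (deriv jj) w ∈ V ^ 5 := by
    rw [d2]
    refine add_mem (mul_mem_le h1 hu4 z2' le_rfl) ?_
    have h3 : 2 * (γ 1 0 : ℂ) * u ^ 3 * deriv jj z = ((2 * γ 1 0 : ℤ) : ℂ) * (u ^ 3 * deriv jj z) := by
      push_cast
      ring
    rw [h3]
    exact K_mul (K.toSubalgebra.intCast_mem _) (mul_mem_le h1 hu3 z1' (by norm_num))
  have ww : w * deriv jj w ∈ V ^ 3 := by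
    have h3 : w * deriv jj w = t * u * deriv jj z := by
      rw [d1, d3]
      field_simp
    rw [h3]
    exact mul_mem_le h1 (mul_mem_le h1 ht1 hu1 le_rfl) z1' le_rfl
  have haK : 1 / η ∈ K := K.div_mem K.one_mem hηK
  have hpne : tpi ≠ 0 := by
    have h1 : (Real.pi : ℂ) ≠ 0 := by exact_mod_cast Real.pi_ne_zero
    exact mul_ne_zero (mul_ne_zero two_ne_zero h1) Complex.I_ne_zero
  have k0 : tpi ^ 2 * v 0 ^ 2 = (1 / η) * (-(tpi * deriv jj w)) := by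
    rw [e1]
    field_simp
  have hLn : (L + n * tpi) ∈ V ^ 1 := by
    rw [pow_one]
    exact add_mem hL (hint _ hpi)
  have k1 : tpi ^ 2 * (v 0 * v 2) = (1 / η) * (tpi ^ 2 * (w * deriv jj w) - tpi * deriv jj w * (L + n * tpi)) := by
    have h3 : v 2 = v 0 * (L + n * tpi - tpi * w) := by
      rw [e3]
      field_simp
      ring
    have h4 : tpi ^ 2 * (v 0 * v 2) = (tpi ^ 2 * v 0 ^ 2) * (L + n * tpi - tpi * w) := by
      rw [h3]
      ring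
    rw [h4, k0]
    ring
  have k2 : tpi ^ 2 * (v 0 ^ 3 * v 1) = (1 / η / 2) * ((1 / η) * (deriv jj w * deriv jj w) - deriv (deriv jj) w) := by
    have h3 : (1 / η) * ((1 / η) * (deriv jj w * deriv jj w)) = tpi ^ 2 * v 0 ^ 4 := by
      rw [e1]
      field_simp
    have h4 : (1 / η) * deriv (deriv jj) w = tpi ^ 2 * (v 0 ^ 4 - 2 * v 0 ^ 3 * v 1) := by
      rw [e2]
      field_simp
    linear_combination (-1 / 2 : ℂ) * h3 + (1 / 2 : ℂ) * h4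
  refine ⟨pow_mem_mono h1 (by norm_num) hp2, fun i => ?_⟩
  fin_cases i
  · show tpi ^ 2 * v 0 ^ 2 ∈ V ^ 6
    rw [k0]
    exact K_mul haK (neg_mem (mul_mem_le h1 hpi' w1 (by norm_num)))
  · show tpi ^ 2 * (v 0 * v 2) ∈ V ^ 6
    rw [k1]
    exact K_mul haK (sub_mem (mul_mem_le h1 hp2 ww (by norm_num))
      (mul_mem_le h1 (mul_mem_le h1 hpi' w1 (le_refl 4)) hLn (by norm_num)))
  · show tpi ^ 2 * (v 0 ^ 3 * v 1) ∈ V ^ 6
    rw [k2]
    exact K_mul (K.div_mem haK (K.toSubalgebra.natCast_mem 2)) (sub_mem (K_mul haK (mul_mem_le h1 w1 w1 le_rfl))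
      (pow_mem_mono h1 (by norm_num) w2))

lemma norm_shift {H : ℕ} {ξ : ℂ} (h : 2 * ((H : ℝ) + 2) ≤ ‖ξ‖) : ‖ξ‖ ≤ 2 * ‖ξ + (H + 1 : ℕ)‖ := by
  have hnc : ‖(((H + 1 : ℕ) : ℂ))‖ = (H : ℝ) + 1 := by
    rw [Complex.norm_natCast]
    push_cast
    rfl
  have h1 := norm_sub_norm_le ξ (-(((H + 1 : ℕ) : ℂ)))
  rw [norm_neg, hnc, sub_neg_eq_add] at h1
  linarith

/-- large exponents -/
lemma exists_exp (T : ℝ) : ∃ c : ℕ, ∀ (H : ℕ) (x : ℝ), ((H : ℝ) + 2) ^ (c + 2) ≤ x → T + H ≤ x := by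
  obtain ⟨c, hc⟩ := exists_nat_ge T
  refine ⟨c, fun H x hx => ?_⟩
  have hH : (0 : ℝ) ≤ H := Nat.cast_nonneg H
  have h1 : (c : ℝ) + 1 ≤ 2 ^ (c + 1) := by
    have h2 : c + 1 < 2 ^ (c + 1) := Nat.lt_two_pow_self
    exact_mod_cast h2.le
  have h2 : (2 : ℝ) ^ (c + 1) ≤ ((H : ℝ) + 2) ^ (c + 1) := pow_le_pow_left₀ (by norm_num) (by linarith) _
  have h3 : ((H : ℝ) + 2) ^ (c + 2) = ((H : ℝ) + 2) ^ (c + 1) * ((H : ℝ) + 2) := pow_succ _ _
  have h4 : ((c : ℝ) + 1) * ((H : ℝ) + 2) ≤ ((H : ℝ) + 2) ^ (c + 1) * ((H : ℝ) + 2) :=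
    mul_le_mul_of_nonneg_right (h1.trans h2) (by linarith)
  have hc0 : (0 : ℝ) ≤ c := Nat.cast_nonneg c
  nlinarith

theorem allJ₁ (k m A M s : ℕ) : ∃ E : ℕ → ℕ, PB E ∧ ∀ (δ H : ℕ) (ξ : ℂ), ((H : ℝ) + 2) ^ E δ ≤ ‖ξ‖ → Ht m A ξ →
    ∀ n : Fin k → ℕ, Function.Injective n → (∀ i, 1 ≤ n i ∧ n i ≤ H) →
    ∀ z : Fin k → UpperHalfPlane, (∀ i, jj (z i) = ξ + n i) →
    ∀ (ι : Type) [Fintype ι], Fintype.card ι = M → ∀ (y : ι → ℂ) (θ : Fin s → ℂ),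
    (∀ (K' : IntermediateField ℚ ℂ) (V : Submodule K' ℂ), (∀ i, y i ∈ V) → (∀ i, θ i ∈ V) →
      tpi ∈ V ∧ Complex.log (1 / (ξ + (H + 1 : ℕ))) ∈ V ∧ ∀ l i, jt (z l) i ∈ V) →
    ∀ K : IntermediateField ℚ ℂ, FiniteDimensional ℚ K → finrank ℚ K ≤ δ →
      ∃ σ : Fin (k * 3 - s) → ι, Function.Injective σ ∧ LIb K δ (fun i => y (σ i)) := by
  classical
  obtain ⟨Y, E₁, hY, hlink⟩ := link
  obtain ⟨T, hT⟩ := fd_large Y
  obtain ⟨c₀, hc₀⟩ := exists_exp T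
  obtain ⟨N, hNp, hN⟩ := core_exp (k * 3) s 6 M (fun c _ => c) PB.id
  obtain ⟨E, hEp, hE⟩ := freeJ k m A
  refine ⟨fun δ => E ((δ * m + δ) + 4 * (k * 3 * N (δ * m + δ))) + (E₁ + (c₀ + 4)), ?_, ?_⟩
  · have h1 : PB fun δ : ℕ => δ * m + δ := (PB.id.mul (PB.const m)).add PB.id
    exact (hEp.comp (h1.add ((PB.const 4).mul ((PB.const (k * 3)).mul (hNp.comp h1))))).add (PB.const _)
  intro δ H ξ hξ hHt n hn hnb z hz ι _ hι y θ hy K hK hKd
  have hH0 : (0 : ℝ) ≤ H := Nat.cast_nonneg H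
  have hH : (1 : ℝ) ≤ (H : ℝ) + 2 := by linarith
  have hle : ∀ {a : ℕ}, a ≤ E ((δ * m + δ) + 4 * (k * 3 * N (δ * m + δ))) + (E₁ + (c₀ + 4)) →
      ((H : ℝ) + 2) ^ a ≤ ‖ξ‖ := fun {a} ha => (pow_le_pow_right₀ hH ha).trans hξ
  have h2H : 2 * ((H : ℝ) + 2) ≤ ‖ξ‖ := by
    refine le_trans ?_ (hle (a := 2) (by omega))
    nlinarith
  have hsh := norm_shift h2H
  set ξ' : ℂ := ξ + (H + 1 : ℕ) with hξ'
  -- the shifts
  set g : Fin k → ℕ := fun i => H + 1 - n i with hg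
  have hgn : ∀ i, (g i : ℂ) = (H + 1 : ℕ) - n i := by
    intro i
    have h1 := (hnb i).2
    rw [hg]
    show ((H + 1 - n i : ℕ) : ℂ) = _
    rw [Nat.cast_sub (by omega)]
  have hginj : Function.Injective g := by
    intro i j hij
    have h1 := (hnb i).2
    have h2 := (hnb j).2
    have h3 : H + 1 - n i = H + 1 - n j := hij
    exact hn (by omega)
  have hgb : ∀ i, 1 ≤ g i ∧ g i ≤ H := by
    intro i
    have h1 := hnb i
    have h3 : g i = H + 1 - n i := rfl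
    omega
  have hj' : ∀ i, ξ + n i = ξ' - g i := by
    intro i
    rw [hgn i, hξ']
    ring
  -- the points of large imaginary part
  have hnorm : ∀ i, T ≤ ‖jj (z i)‖ := by
    intro i
    have h1 := hc₀ H ‖ξ‖ (hle (by omega))
    rw [hz i]
    have h2 := norm_sub_norm_le ξ (-(n i : ℂ))
    rw [norm_neg, Complex.norm_natCast, sub_neg_eq_add] at h2
    have h3 : (n i : ℝ) ≤ H := by exact_mod_cast (hnb i).2
    linarith
  choose γ hγ hγj using fun i => hT (z i) (hnorm i)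
  have hE₁' : ∀ i, ((g i : ℝ) + 2) ^ E₁ ≤ ‖ξ'‖ := by
    intro i
    have h1 : ((H : ℝ) + 2) ^ (E₁ + 1) ≤ ‖ξ‖ := hle (by omega)
    rw [pow_succ] at h1
    have h2 : (g i : ℝ) ≤ H := by exact_mod_cast (hgb i).2
    have h3 : ((g i : ℝ) + 2) ^ E₁ ≤ ((H : ℝ) + 2) ^ E₁ := pow_le_pow_left₀ (by positivity) (by linarith) _
    have h4 : ((H : ℝ) + 2) ^ E₁ * 2 ≤ ((H : ℝ) + 2) ^ E₁ * ((H : ℝ) + 2) :=
      mul_le_mul_of_nonneg_left (by linarith) (by positivity)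
    linarith
  have hl := fun i => hlink (g i) ξ' ((γ i • z i : UpperHalfPlane) : ℂ) (hE₁' i) (hγ i) (by
    rw [hγj i, hz i, hj' i])
  -- the field
  obtain ⟨p, hp0, hpd, hpY, hp⟩ := id hHt
  obtain ⟨K₁, ξ₁, k1, k2, k3, -⟩ := pt_root hp0 hpd hpY hp
  set K' : IntermediateField ℚ ℂ := K ⊔ K₁ with hK'
  have hKK' : K ≤ K' := le_sup_left
  have hK'f : FiniteDimensional ℚ K' := inferInstance
  have hK'd : finrank ℚ K' ≤ δ * m :=
    (IntermediateField.finrank_sup_le _ _).trans (Nat.mul_le_mul hKd k2)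
  have hξK : ξ ∈ K' := by
    have h1 : (ξ₁ : ℂ) ∈ K₁ := ξ₁.2
    rw [k3] at h1
    exact (le_sup_right : K₁ ≤ K') h1
  have hηK : ∀ i, ξ' - g i ∈ K' := by
    intro i
    rw [← hj' i]
    exact K'.add_mem hξK (K'.toSubalgebra.natCast_mem _)
  -- the core
  have hfree := (hE ((δ * m + δ) + 4 * (k * 3 * N (δ * m + δ))) H ξ (hle (by omega)) hHt).2 g hginj hgb K' hK'f
    (hK'd.trans (by omega))
  obtain ⟨σ, hσ, hσ2⟩ := hN (δ * m + δ) K' (hK'd.trans (Nat.le_add_right _ _)) ι hι y (Fin k × Fin 3) (by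
      rw [Fintype.card_prod, Fintype.card_fin, Fintype.card_fin])
    (fun c => xf (fun i => vC ξ' (g c.1) i) c.2) (fun c e W₁ h1 hyW hG => by
      obtain ⟨V, hV, hθV, hG'⟩ := gr_fam c s e W₁ h1 hG θ
      obtain ⟨m1, m2, m3⟩ := hy K' V (fun i => hV (hyW i)) hθV
      have hmem := fun l => memV (hV h1) m1 m2 (m3 l) (γ l) (hl l).2.2.1 (hηK l) (v := vC ξ' (g l)) (hl l).1
        (hl l).2.2.2.1 (hl l).2.2.2.2.1 _ (hl l).2.2.2.2.2.choose_spec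
      have hpne : tpi ≠ 0 := by
        have h1 : (Real.pi : ℂ) ≠ 0 := by exact_mod_cast Real.pi_ne_zero
        exact mul_ne_zero (mul_ne_zero two_ne_zero h1) Complex.I_ne_zero
      refine ⟨V, tpi ^ 2, hV h1, hG', pow_ne_zero 2 hpne, ?_, fun i => (hmem i.1).2 i.2⟩
      have h2 : tpi ^ 2 ∈ V ^ 2 := by
        rw [pow_two tpi]
        refine mul_mem_le (hV h1) (a := 1) (b := 1) ?_ ?_ le_rfl <;> rw [pow_one] <;> exact m1
      exact pow_mem_mono (hV h1) (by norm_num) h2) (by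
      refine box_dom (K := K') (fun c => vC ξ' (g c.1) c.2) 4 (N (δ * m + δ)) (fun Q hQ hQ0 => ?_) (fX K' k)
        (fX_deg K' k) (fX_dom K' k) _ fun c => ?_
      · refine hfree Q (hQ.trans ?_) hQ0
        rw [Fintype.card_prod, Fintype.card_fin, Fintype.card_fin]
        exact Nat.le_add_left _ _
      · rw [fX_eval])
  exact ⟨σ, hσ, LIb.mono hKK' (LIb.mono_deg (Nat.le_add_left _ _) hσ2)⟩

/-- the same with indices which do not depend on the field -/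
theorem allJ₂ (k m A M s : ℕ) : ∃ E : ℕ → ℕ, PB E ∧ ∀ (δ H : ℕ) (ξ : ℂ), ((H : ℝ) + 2) ^ E δ ≤ ‖ξ‖ → Ht m A ξ →
    ∀ n : Fin k → ℕ, Function.Injective n → (∀ i, 1 ≤ n i ∧ n i ≤ H) →
    ∀ z : Fin k → UpperHalfPlane, (∀ i, jj (z i) = ξ + n i) →
    ∀ (ι : Type) [Fintype ι], Fintype.card ι = M → ∀ (y : ι → ℂ) (θ : Fin s → ℂ),
    (∀ (K' : IntermediateField ℚ ℂ) (V : Submodule K' ℂ), (∀ i, y i ∈ V) → (∀ i, θ i ∈ V) →
      tpi ∈ V ∧ Complex.log (1 / (ξ + (H + 1 : ℕ))) ∈ V ∧ ∀ l i, jt (z l) i ∈ V) →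
      ∃ σ : Fin (k * 3 - s) → ι, Function.Injective σ ∧
        ∀ K : IntermediateField ℚ ℂ, FiniteDimensional ℚ K → finrank ℚ K ≤ δ → LIb K δ (fun i => y (σ i)) := by
  classical
  obtain ⟨E, hEp, hE⟩ := allJ₁ k m A M s
  refine ⟨fun δ => E ((δ + 1) ^ (M ^ (k * 3 - s)) + δ), hEp.comp (((PB.id.add (PB.const 1)).pow _).add PB.id), ?_⟩
  intro δ H ξ hξ hHt n hn hnb z hz ι _ hι y θ hy
  refine unif y fun K hK hKd => ?_
  obtain ⟨σ, hσ, hσ2⟩ := hE _ H ξ hξ hHt n hn hnb z hz ι hι y θ hy K hK (hKd.trans (by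
    rw [Fintype.card_fun, Fintype.card_fin, hι]
    exact Nat.le_add_right _ _))
  exact ⟨σ, hσ, LIb.mono_deg (Nat.le_add_left _ _) hσ2⟩

end Pool.Agent.J6H76.MS
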