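import Pool.Agent.Y120.K.All
import Pool.Agent.Y547.AF.Cx

/-!
# The modular G-functions: the base family with the explicit denominator, and complex points

The theorem `basej_ex` is the theorem `Pool.Agent.Y606.K.t_basej` of the starting library; its proof is repeated here in
order to have the denominator of the differential equations, which has no zeros near the origin, in the statement.
-/

set_option autoImplicit false

open PowerSeries Pool.Agent.Y113 Pool.Agent.Y120.GH Pool.Agent.Y120.J Pool.Agent.Y606.K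
open Pool.Agent.Y120.K hiding lin

namespace Pool.Agent.J6H76.MS

/-- the base family is a G-system, uniformly in the shift, with the explicit denominator -/
theorem basej_ex (s : Bool) (hgu : T_GU) (hode : T_ODE) (hsd : T_SD) : ∃ q E : ℕ, ∀ g : ℕ,
    GSys q (((g : ℝ) + 2) ^ E) (Polynomial.X * Tp s g) (baseJ s g) := by
  obtain ⟨q, E, hq⟩ := hgu 2 4 !![0, 1; 0, 0]
    (fun g => !![sf g (hS s 0), Gh s g; sf g (hS s 2), Gh1 s g])
    (fun g => !![Gh1 s g, -Gh s g; -sf g (hS s 2), sf g (hS s 0)])
    (Tp s) (Ap s) (by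
      rw [pow_two]
      ext i j
      fin_cases i <;> fin_cases j <;> simp [Matrix.mul_apply, Fin.sum_univ_two])
    (fun g => by
      have h := (sh_ode s g hode).2.2.2.2
      ext i j : 1
      fin_cases i <;> fin_cases j
      · simp only [Matrix.mul_apply, Fin.sum_univ_two]
        simp
        linear_combination h
      · simp only [Matrix.mul_apply, Fin.sum_univ_two]
        simp
        ring
      · simp only [Matrix.mul_apply, Fin.sum_univ_two]
        simp
        ring
      · simp only [Matrix.mul_apply, Fin.sum_univ_two]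
        simp
        linear_combination h)
    (fun g i j => by
      obtain ⟨h1, h2, h3, h4, _⟩ := sh_ode s g hode
      rw [ps_Tp]
      fin_cases i <;> fin_cases j
      · simp only [Fin.sum_univ_two, Ap]
        simp [ps_mul, ps_hg, ps_zero]
        linear_combination h1
      · simp only [Fin.sum_univ_two, Ap]
        simp [ps_mul, ps_hg, ps_zero]
        linear_combination h2
      · simp only [Fin.sum_univ_two, Ap]
        simp [ps_QQ, ps_zero]
        linear_combination h3
      · simp only [Fin.sum_univ_two, Ap]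
        simp [ps_QQ, ps_zero]
        linear_combination h4)
    (fun i j => by
      fin_cases i <;> fin_cases j
      · exact sde_sf s hsd 0
      · exact sde_Gh s hsd
      · exact sde_sf s hsd 2
      · exact sde_Gh1 s hsd)
    (fun i j => by
      fin_cases i <;> fin_cases j
      · exact sde_Gh1 s hsd
      · exact (sde_Gh s hsd).neg
      · exact (sde_sf s hsd 2).neg
      · exact sde_sf s hsd 0)
    ⟨75, fun g => by
      have h1 := bd_mul le_rfl (bd_h s g) (bd_h s g)
      have h2 := bd_mul le_rfl (bd_g g) h1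
      have h3 := bd_mul le_rfl (bd_q1 g) h2
      have h4 := bd_mul le_rfl (bd_q1 g) (bd_q2 s g)
      have hb : ∀ a : ℕ, a ≤ 75 → ((g : ℝ) + 2) ^ a ≤ ((g : ℝ) + 2) ^ 75 := fun a ha =>
        base_mono (one_le_base g) ha
      refine ⟨h2.mono (by norm_num) (hb _ (by norm_num)), ?_, fun i j => ?_⟩
      · rw [X_eq]
        exact h3.mono (by norm_num) (hb _ (by norm_num))
      · have hz : Bd 4 (((g : ℝ) + 2) ^ 75) (0 : Polynomial ℤ) := by
          refine ⟨by simp, fun l => ?_⟩
          simp
          positivity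
        fin_cases i <;> fin_cases j
        · exact hz
        · exact h1.mono (by norm_num) (hb _ (by norm_num))
        · exact h4.mono (by norm_num) (hb _ (by norm_num))
        · exact hz⟩
  -- adjoin the constant one and change the signs
  obtain ⟨E₁, hE₁⟩ := t_fam 5 q
  let e : Fin 5 ≃ Option (Fin 2 × Fin 2) := Equiv.ofBijective
    ![none, some (0, 0), some (1, 0), some (0, 1), some (1, 1)] (by decide)
  let sg : Fin 5 → ℤ := ![1, 1, 1, -1, -1]
  have hsg : ∀ j, sg j * sg j = 1 := by decide
  have hsga : ∀ j, |((sg j : ℤ) : ℝ)| = 1 := by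
    intro j
    fin_cases j <;> simp [sg]
  have hfam : ∀ g : ℕ, GSys q (((g : ℝ) + 2) ^ ((E + 1) * E₁)) (Polynomial.X * Tp s g)
      (baseJ s g) := by
    intro g
    have h1 := (Pool.Agent.Y120.GH.gsys_opt (hq g)).reindex e
    have hone : (1 : ℝ) ≤ ((g : ℝ) + 2) ^ E := one_le_pow₀ (one_le_base g)
    have hy : ∀ j : Fin 5, baseJ s g j = (sg j : ℚ⟦X⟧) * (fun o : Option (Fin 2 × Fin 2) =>
        o.elim (1 : ℚ⟦X⟧) fun p => (!![sf g (hS s 0), Gh s g; sf g (hS s 2), Gh1 s g] :
          Matrix (Fin 2) (Fin 2) ℚ⟦X⟧) p.1 p.2) (e j) := by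
      intro j
      fin_cases j
      · show (1 : ℚ⟦X⟧) = ((1 : ℤ) : ℚ⟦X⟧) * 1
        simp
      · show sf g (hS s 0) = ((1 : ℤ) : ℚ⟦X⟧) * sf g (hS s 0)
        simp
      · show sf g (hS s 2) = ((1 : ℤ) : ℚ⟦X⟧) * sf g (hS s 2)
        simp
      · show -(sf g (hS s 1) - sf g (hS s 0) * lg g) = ((-1 : ℤ) : ℚ⟦X⟧) * Gh s g
        unfold Gh
        push_cast
        ring
      · show -(sf g (hS s 3) - sf g (hS s 2) * lg g) = ((-1 : ℤ) : ℚ⟦X⟧) * Gh1 s g
        unfold Gh1
        push_cast
        ring
    have hbd : ∀ j i : Fin 5, |(((if i = j then sg j else 0 : ℤ) : ℤ) : ℝ)| ≤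
        ((g : ℝ) + 2) ^ E := by
      intro j i
      split_ifs
      · rw [hsga]
        exact hone
      · simp only [Int.cast_zero, abs_zero]
        exact zero_le_one.trans hone
    refine (hE₁ (Fin 5) (Fin 5) _ _ _ (baseJ s g) (fun j i => if i = j then sg j else 0)
      (fun j i => if i = j then sg j else 0) (by simp) (by simp) h1 hbd hbd
      (fun j => ?_) (fun j => ?_)).mono le_rfl (pow_base g E E₁)
    · rw [Finset.sum_eq_single j]
      · rw [if_pos rfl]
        exact hy j
      · intro i _ hi
        rw [if_neg hi, Int.cast_zero, zero_mul]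
      · intro hj
        exact absurd (Finset.mem_univ _) hj
    · rw [Finset.sum_eq_single j]
      · rw [if_pos rfl, hy j, ← mul_assoc, ← Int.cast_mul, hsg j, Int.cast_one, one_mul]
      · intro i _ hi
        rw [if_neg hi, Int.cast_zero, zero_mul]
      · intro hj
        exact absurd (Finset.mem_univ _) hj
  exact ⟨q, (E + 1) * E₁, hfam⟩

theorem aeval_linC (a b : ℤ) (x : ℂ) : Polynomial.aeval x (lin a b) = a + b * x := by
  unfold lin
  simp

/-- the denominator has no zeros near the origin -/
theorem Tp_ne (s : Bool) (g : ℕ) {ξ : ℂ} (h : (g : ℝ) + 1728 < ‖ξ‖) :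
    Polynomial.aeval (1 / ξ) (Polynomial.X * Tp s g) ≠ 0 := by
  have h0 : (0 : ℝ) ≤ g := Nat.cast_nonneg g
  have hξ : 0 < ‖ξ‖ := by linarith
  have hlin : ∀ b : ℤ, |(b : ℝ)| < ‖ξ‖ → Polynomial.aeval (1 / ξ) (lin 1 b) ≠ 0 := by
    intro b hb h1
    rw [aeval_linC] at h1
    have h2 : ξ = -(b : ℂ) := by
      have hne : ξ ≠ 0 := norm_pos_iff.1 hξ
      field_simp at h1
      push_cast at h1
      linear_combination h1
    rw [h2, norm_neg, Complex.norm_intCast] at hb
    exact lt_irrefl _ hb
  have hh : |((-hg s g : ℤ) : ℝ)| < ‖ξ‖ := by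
    unfold hg
    rw [Int.cast_neg, abs_neg, Int.cast_add, Int.cast_mul, Int.cast_natCast]
    refine lt_of_le_of_lt (abs_add_le _ _) ?_
    rw [abs_mul, abs_si, abs_of_nonneg h0]
    norm_num
    linarith
  have hg' : |((-(g : ℤ) : ℤ) : ℝ)| < ‖ξ‖ := by
    rw [Int.cast_neg, abs_neg, Int.cast_natCast, abs_of_nonneg h0]
    linarith
  unfold Tp
  rw [map_mul, map_mul, map_mul, Polynomial.aeval_X]
  exact mul_ne_zero (one_div_ne_zero (norm_pos_iff.1 hξ)) (mul_ne_zero (hlin _ hg') (mul_ne_zero (hlin _ hh) (hlin _ hh)))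

end Pool.Agent.J6H76.MS
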