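import Pool.Agent.J6H76.MS.InpJ
import Pool.Agent.J6H76.EW.Wnd
import Pool.Agent.R351.GD.J.Tup

/-!
# The values of the modular G-functions at all tuples of a window, at algebraic points
-/

set_option autoImplicit false

open Module PowerSeries

namespace Pool.Agent.J6H76.MS

open Pool.Agent.Y113 Pool.Agent.Y916.Al Pool.Agent.R351.GD Pool.Agent.J6H76.EW

/-- translation of a point of a number field -/
lemma pt_shift {K : IntermediateField ℚ ℂ} {ξ : K} {X : ℝ} (h : Pt K ξ X) (n : ℕ) :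
    Pt K (ξ + (n : K)) (((n : ℝ) + 1) * X) := by
  obtain ⟨u, w, hu, hw, hw0, hx, hσ⟩ := h
  have hni : IsIntegral ℤ (n : K) := by
    have h1 := isIntegral_algebraMap (R := ℤ) (A := K) (x := (n : ℤ))
    simpa using h1
  refine ⟨u + (n : K) * w, w, hu.add (hni.mul hw), hw, hw0, ?_, fun σ => ?_⟩
  · rw [hx]
    field_simp
  · obtain ⟨h1, h2⟩ := hσ σ
    have hX : 0 ≤ X := (norm_nonneg _).trans h1
    have hn : (0 : ℝ) ≤ n := Nat.cast_nonneg n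
    constructor
    · rw [map_add, map_mul, map_natCast]
      refine (norm_add_le _ _).trans ?_
      rw [norm_mul, Complex.norm_natCast]
      nlinarith [mul_le_mul_of_nonneg_left h2 hn]
    · nlinarith

/-- the values at all tuples of a window satisfy no relations -/
theorem freeJ (r m A : ℕ) : ∃ E : ℕ → ℕ, PB E ∧ ∀ (δ H : ℕ) (ξ : ℂ), ((H : ℝ) + 2) ^ E δ ≤ ‖ξ‖ → Ht m A ξ →
    ((H : ℝ) + 2) ^ E δ ≤ 2 * ‖ξ + (H + 1 : ℕ)‖ ∧
    ∀ g : Fin r → ℕ, Function.Injective g → (∀ i, 1 ≤ g i ∧ g i ≤ H) →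
    ∀ K : IntermediateField ℚ ℂ, FiniteDimensional ℚ K → finrank ℚ K ≤ δ →
    ∀ P : MvPolynomial (Fin r × Fin 3) K, P.totalDegree ≤ δ →
      MvPolynomial.aeval (fun x : Fin r × Fin 3 => vC (ξ + (H + 1 : ℕ)) (g x.1) x.2) P = 0 → P = 0 := by
  classical
  obtain ⟨E, hEp, hE⟩ := windowS vC inpJ r m 1 (4 * A + 6)
  refine ⟨fun δ => E δ + 2, hEp.add (PB.const 2), fun δ H ξ hξ hHt => ?_⟩
  have hH0 : (0 : ℝ) ≤ H := Nat.cast_nonneg H
  have hH : (1 : ℝ) ≤ (H : ℝ) + 2 := by linarith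
  have hξ' : ((H : ℝ) + 2) ^ E δ * ((H : ℝ) + 2) ^ 2 ≤ ‖ξ‖ := by
    rw [← pow_add]
    exact hξ
  have h1E : (1 : ℝ) ≤ ((H : ℝ) + 2) ^ E δ := one_le_pow₀ hH
  have hHξ : 2 * ((H : ℝ) + 2) ≤ ‖ξ‖ := by nlinarith
  have hcast : (((H + 1 : ℕ) : ℂ)) = (H : ℂ) + 1 := by push_cast; rfl
  have hnc : ‖(((H + 1 : ℕ) : ℂ))‖ = (H : ℝ) + 1 := by
    rw [Complex.norm_natCast]
    push_cast
    rfl
  have hn1 : ‖ξ‖ - ((H : ℝ) + 1) ≤ ‖ξ + (H + 1 : ℕ)‖ := by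
    have h1 := norm_sub_norm_le ξ (-(((H + 1 : ℕ) : ℂ)))
    rw [norm_neg, hnc, sub_neg_eq_add] at h1
    exact h1
  have hn2 : ‖ξ‖ ≤ 2 * ‖ξ + (H + 1 : ℕ)‖ := by linarith
  have hn3 : (2 : ℝ) ≤ ‖ξ + (H + 1 : ℕ)‖ := by linarith
  have hn4 : ((H : ℝ) + 2) ^ E δ ≤ ‖ξ + (H + 1 : ℕ)‖ := by
    have h2 : ((H : ℝ) + 2) ^ E δ * 4 ≤ ((H : ℝ) + 2) ^ E δ * ((H : ℝ) + 2) ^ 2 :=
      mul_le_mul_of_nonneg_left (by nlinarith) (by positivity)
    linarith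
  refine ⟨hξ.trans hn2, fun g hg hgb K hKf hKd P hP hP0 => ?_⟩
  obtain ⟨p, hp0, hpd, hpY, hp⟩ := hHt
  obtain ⟨K₁, ξ', h1, h2, h3, h4⟩ := pt_root hp0 hpd hpY hp
  have h5 := pt_shift h4 (H + 1)
  have e1 : ((ξ' + ((H + 1 : ℕ) : K₁) : K₁) : ℂ) = ξ + (H + 1 : ℕ) := by
    push_cast
    rw [h3]
  refine hE δ H K₁ (ξ' + ((H + 1 : ℕ) : K₁)) _ h1 h2 h5 (by rw [e1]; exact hn4) (by
    rw [e1]
    have hA1 : (1 : ℝ) ≤ ‖ξ‖ ^ A := one_le_pow₀ (by linarith)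
    have hξ2 : (2 : ℝ) ≤ ‖ξ‖ := by linarith
    have q1 : (((H + 1 : ℕ) : ℝ) + 1) * (‖ξ‖ ^ A * (‖ξ‖ ^ A + 2)) ≤ ‖ξ‖ ^ (2 * A + 3) := by
      have q2 : ‖ξ‖ ^ A * (‖ξ‖ ^ A + 2) ≤ ‖ξ‖ ^ A * (‖ξ‖ ^ A * ‖ξ‖ ^ 2) := by
        refine mul_le_mul_of_nonneg_left ?_ (by positivity)
        have h6 : (4 : ℝ) ≤ ‖ξ‖ ^ 2 := by nlinarith
        have h7 : ‖ξ‖ ^ A * 4 ≤ ‖ξ‖ ^ A * ‖ξ‖ ^ 2 := mul_le_mul_of_nonneg_left h6 (by positivity)
        linarith
      have q3 : (((H + 1 : ℕ) : ℝ) + 1) ≤ ‖ξ‖ := by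
        push_cast
        linarith
      calc (((H + 1 : ℕ) : ℝ) + 1) * (‖ξ‖ ^ A * (‖ξ‖ ^ A + 2)) ≤ ‖ξ‖ * (‖ξ‖ ^ A * (‖ξ‖ ^ A * ‖ξ‖ ^ 2)) :=
            mul_le_mul q3 q2 (by positivity) (by positivity)
        _ = ‖ξ‖ ^ (2 * A + 3) := by ring
    refine q1.trans ?_
    have hb : ‖ξ‖ ≤ ‖ξ + (H + 1 : ℕ)‖ ^ 2 := by nlinarith
    calc ‖ξ‖ ^ (2 * A + 3) ≤ (‖ξ + (H + 1 : ℕ)‖ ^ 2) ^ (2 * A + 3) := pow_le_pow_left₀ (norm_nonneg _) hb _
      _ = ‖ξ + (H + 1 : ℕ)‖ ^ (4 * A + 6) := by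
        rw [← pow_mul]
        congr 1
        ring) g hg hgb ⊥ inferInstance (by rw [IntermediateField.finrank_bot]) _ (fun q => ⟨1, one_ne_zero, ?_⟩)
    K hKf hKd P hP hP0
  rw [e1]
  simp

/-- monomials in polynomials of free numbers -/
lemma box_dom {J I : Type} [Fintype J] [Fintype I] {K : IntermediateField ℚ ℂ} (y : J → ℂ) (d N : ℕ)
    (hy : ∀ Q : MvPolynomial J K, Q.totalDegree ≤ d * (Fintype.card I * N) → MvPolynomial.aeval y Q = 0 → Q = 0)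
    (f : I → MvPolynomial J K) (hf : ∀ i, (f i).totalDegree ≤ d)
    (hdom : ∀ R : MvPolynomial I K, MvPolynomial.aeval f R = 0 → R = 0)
    (x : I → ℂ) (hx : ∀ i, x i = MvPolynomial.aeval y (f i)) :
    LinearIndependent ℚ (fun t : I → Fin (N + 1) => ∏ i, x i ^ (t i : ℕ)) := by
  classical
  rw [Fintype.linearIndependent_iff]
  intro c hc
  let mo : (I → Fin (N + 1)) → (I →₀ ℕ) := fun t => Finsupp.equivFunOnFinite.symm fun i => (t i : ℕ)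
  have hmo : Function.Injective mo := by
    intro t t' h
    have h1 := Finsupp.equivFunOnFinite.symm.injective h
    funext i
    exact Fin.ext (congrFun h1 i)
  let R : MvPolynomial I K := ∑ t, MvPolynomial.monomial (mo t) (algebraMap ℚ K (c t))
  have hRd : R.totalDegree ≤ Fintype.card I * N := by
    refine MvPolynomial.totalDegree_finsetSum_le fun t _ => ?_
    refine (MvPolynomial.totalDegree_monomial_le _ _).trans ?_
    rw [Finsupp.sum_fintype _ _ (fun _ => rfl)]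
    calc ∑ i, mo t i ≤ ∑ _i : I, N := Finset.sum_le_sum fun i _ => Nat.lt_succ_iff.1 (t i).2
      _ = _ := by rw [Finset.sum_const, Finset.card_univ, smul_eq_mul]
  have hval : ∀ t, MvPolynomial.aeval x (MvPolynomial.monomial (mo t) (algebraMap ℚ K (c t))) =
      c t • ∏ i, x i ^ (t i : ℕ) := by
    intro t
    rw [MvPolynomial.aeval_monomial, Finsupp.prod_fintype _ _ (fun _ => pow_zero _), Algebra.smul_def]
    congr 1
  have hx0 : MvPolynomial.aeval x R = 0 := by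
    rw [← hc, map_sum]
    exact Finset.sum_congr rfl fun t _ => hval t
  have hfR : MvPolynomial.aeval y (MvPolynomial.aeval f R) = 0 := by
    rw [← hx0, MvPolynomial.comp_aeval_apply]
    congr 1
    congr 1
    funext i
    exact (hx i).symm
  have h1 := hy (MvPolynomial.aeval f R) (aeval_degc d f hf R hRd) hfR
  have h2 := hdom R h1
  intro t
  have h3 : R.coeff (mo t) = algebraMap ℚ K (c t) := by
    show (∑ t, MvPolynomial.monomial (mo t) (algebraMap ℚ K (c t))).coeff (mo t) = _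
    rw [MvPolynomial.coeff_sum, Finset.sum_eq_single t]
    · rw [MvPolynomial.coeff_monomial, if_pos rfl]
    · intro t' _ ht'
      rw [MvPolynomial.coeff_monomial, if_neg fun h => ht' (hmo h)]
    · intro h
      exact absurd (Finset.mem_univ _) h
  rw [h2, MvPolynomial.coeff_zero] at h3
  exact (algebraMap ℚ K).injective (by rw [← h3, map_zero])

end Pool.Agent.J6H76.MS
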