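import Pool.Agent.J6H76.MS.Alg
import Pool.Agent.J6H76.MS.Base
import Pool.Agent.R351.GD.J.Nrj
import Pool.Agent.R351.GD.S.Win

/-!
# The values of the modular G-functions at algebraic points satisfy no relations
-/

set_option autoImplicit false

open PowerSeries

namespace Pool.Agent.J6H76.MS

open Pool.Agent.Y113 Pool.Agent.Y916.Al Pool.Agent.R351.GD Pool.Agent.Y120.K Pool.Agent.Y929.K
open Pool.Agent.Y109.K (rel baseJ_eq)

/-- the values of `F`, `θF`, `- (G - F log (1 - g x))` at `x = 1 / ξ` -/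
noncomputable def vC (ξ : ℂ) (g : ℕ) (i : Fin 3) : ℂ := evc (1 / ξ) (fJ true g i.castSucc)

lemma prod_span {N : ℕ} {ι : Type} [Fintype ι] (v : Fin N → ι → ℚ⟦X⟧) (u : Fin N → ℚ⟦X⟧)
    (h : ∀ l, u l ∈ Submodule.span ℚ (Set.range (v l))) :
    ∏ l, u l ∈ Submodule.span ℚ (Set.range fun b : Fin N → ι => ∏ l, v l (b l)) := by
  classical
  choose c hc using fun l => (Submodule.mem_span_range_iff_exists_fun ℚ).1 (h l)
  have h1 : ∏ l, u l = ∑ b : Fin N → ι, (∏ l, c l (b l)) • ∏ l, v l (b l) := by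
    have h2 : ∏ l, u l = ∏ l, ∑ i, c l i • v l i := Finset.prod_congr rfl fun l _ => (hc l).symm
    rw [h2, Finset.prod_univ_sum, Fintype.piFinset_univ]
    refine Finset.sum_congr rfl fun b _ => ?_
    simp only [smul_eq_C_mul]
    rw [Finset.prod_mul_distrib, map_prod]
  rw [h1]
  exact Submodule.sum_mem _ fun b _ => Submodule.smul_mem _ _ (Submodule.subset_span ⟨b, rfl⟩)

lemma mon_mul (hode : Pool.Agent.Y120.J.T_ODE) (s : Bool) (g : ℕ) {D D' : ℕ} (e : Pool.Agent.Y113.Ex D)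
    (e' : Pool.Agent.Y113.Ex D') : monJ s g e * monJ s g e' ∈
      Submodule.span ℚ (Set.range fun t : Pool.Agent.Y113.Ex (D + D') => monJ s g t) := by
  have he := e.2.1
  have he' := e'.2.1
  rw [Fin.sum_univ_four] at he he'
  obtain ⟨co, -, hc⟩ := reduce (D + D') ((e.1 0 : ℕ) + e'.1 0) ((e.1 1 : ℕ) + e'.1 1) ((e.1 2 : ℕ) + e'.1 2)
    ((e.1 3 : ℕ) + e'.1 3) (by omega)
  have h1 := hc (fJ s g 0) (fJ s g 1) (fJ s g 2) (fJ s g 3) (rel hode s g)
  have h2 : monJ s g e * monJ s g e' = ∑ t : Pool.Agent.Y113.Ex (D + D'), (co t : ℚ⟦X⟧) * monJ s g t := by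
    unfold monJ
    simp only [Fin.prod_univ_four]
    rw [← h1]
    ring
  rw [h2]
  refine Submodule.sum_mem _ fun t _ => ?_
  have h3 : (co t : ℚ⟦X⟧) * monJ s g t = (co t : ℚ) • monJ s g t := by
    rw [smul_eq_C_mul]
    simp
  rw [h3]
  exact Submodule.smul_mem _ _ (Submodule.subset_span ⟨t, rfl⟩)

/-- convergence -/
lemma cvc_fJ {s : Bool} {q Eb : ℕ} {T : Polynomial ℤ} {g : ℕ} (h : GSys q (((g : ℝ) + 2) ^ Eb) T (baseJ s g)) {x : ℂ}
    (hx : ((g : ℝ) + 2) ^ Eb * ‖x‖ < 1) (i : Fin 4) : Cvc x (fJ s g i) := by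
  have hB : (0 : ℝ) ≤ ((g : ℝ) + 2) ^ Eb := by positivity
  refine Cvc.of_bound (A := ((g : ℝ) + 2) ^ Eb) hB hx fun m => ?_
  have h1 := h.size i.succ m
  rw [baseJ_eq, Fin.cons_succ] at h1
  have h2 : ‖((coeff m (fJ s g i) : ℚ) : ℂ)‖ = |((coeff m (fJ s g i) : ℚ) : ℝ)| := by
    rw [Complex.norm_ratCast]
  rw [h2, ← pow_succ']
  exact h1

theorem inpJ : InpE vC := by
  classical
  intro N d A
  obtain ⟨q₀, Eb, hsys⟩ := basej_ex true Pool.Agent.Y340.K.t_gu Pool.Agent.Y120.J.hode Pool.Agent.Y120.J.hsd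
  obtain ⟨q, EF, hEFp, hF⟩ := multi_exp q₀ (fun Δ => (Eb + 1) * ((q₀ + 6) * Δ + 1))
    ((PB.const (Eb + 1)).mul (((PB.const (q₀ + 6)).mul PB.id).add (PB.const 1))) N
  have h00 : ∀ D : ℕ, ∑ i : Fin 3, (fun _ : Fin 3 => 0) i ≤ D := by simp
  obtain ⟨E, hEp, hE⟩ := alg_vals d A q (4 * N) EF hEFp (fun D => Fin N → Pool.Agent.Y113.Ex D)
    (fun D => Fintype.card_pos_iff.2 ⟨fun _ => mkE (fun _ => 0) (h00 D)⟩) (fun D => by
      rw [Fintype.card_fun, Fintype.card_fin, pow_mul]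
      exact Nat.pow_le_pow_left (card_Ex D) N)
  refine ⟨fun Δ => E Δ + (Eb + 12), hEp.add (PB.const _), fun Δ H K ξ X hKf hKd hPt hξ hX g hg hgb Q hQ hQ0 => ?_⟩
  have hH0 : (0 : ℝ) ≤ H := Nat.cast_nonneg H
  have hH2 : (1 : ℝ) ≤ (H : ℝ) + 2 := by linarith
  have hle : ∀ a, a ≤ E Δ + (Eb + 12) → ((H : ℝ) + 2) ^ a ≤ ‖(ξ : ℂ)‖ := fun a ha =>
    (pow_le_pow_right₀ hH2 ha).trans hξ
  have hξ0 : (0 : ℝ) < ‖(ξ : ℂ)‖ := lt_of_lt_of_le (by positivity) hξ
  have hξ1 : ξ ≠ 0 := by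
    rintro rfl
    simp at hξ0
  have hξC : (ξ : ℂ) ≠ 0 := norm_pos_iff.1 hξ0
  have hX0 : 0 ≤ X := by
    obtain ⟨u, w, -, -, -, -, hσ⟩ := hPt
    exact (norm_nonneg _).trans (hσ (algebraMap K ℂ)).1
  have hPt' := Pt.inv hX0 hξ1 hPt 1 le_rfl
  have e1 : (1 / (((1 : ℕ) : K) * ξ) : K) = 1 / ξ := by simp
  have e2 : (((1 : ℕ) : ℝ)) * X = X := by simp
  rw [e1, e2] at hPt'
  have e3 : ((1 / ξ : K) : ℂ) = 1 / (ξ : ℂ) := by push_cast; ring
  have hgH : ∀ l, ((g l : ℕ) : ℝ) ≤ H := fun l => by exact_mod_cast (hgb l).2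
  have hcvJ : ∀ (l : Fin N) (i : Fin 4), Cvc (1 / (ξ : ℂ)) (fJ true (g l) i) := by
    intro l i
    refine cvc_fJ (hsys (g l)) ?_ i
    rw [norm_div, norm_one, mul_one_div, div_lt_one hξ0]
    calc ((g l : ℝ) + 2) ^ Eb ≤ ((H : ℝ) + 2) ^ Eb := pow_le_pow_left₀ (by positivity) (by linarith [hgH l]) _
      _ < ((H : ℝ) + 2) ^ (Eb + 1) := pow_lt_pow_right₀ (by linarith) (by omega)
      _ ≤ _ := hle _ (by omega)
  have hcvM : ∀ (l : Fin N) {D : ℕ} (e : Pool.Agent.Y113.Ex D), Cvc (1 / (ξ : ℂ)) (monJ true (g l) e) := by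
    intro l D e
    unfold monJ
    exact Cvc.prod _ _ fun i _ => (hcvJ l i).pow _
  -- the values are linearly independent
  have hmain := hE Δ H (∏ l, (Polynomial.X * Pool.Agent.Y606.K.Tp true (g l)))
    (fun D b => ∏ l, monJ true (g l) (b l)) K (1 / ξ) X hKf hKd (one_div_ne_zero hξ1) hPt'
    (fun D => hF D (Pool.Agent.Y113.Ex D) (fun g e => monJ true g e) _ (fun g => by
      refine (monJ_c Pool.Agent.Y120.J.hode true (hsys g) D).mono le_rfl ?_
      exact pow_base g _ _) H g fun l => (hgb l).2)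
    (fun D => ⟨fun _ => mkE (fun _ => 0) (h00 D), by
      refine Finset.prod_eq_one fun l _ => ?_
      rw [monJ_mkE]
      simp⟩)
    (fun D => hlij true N D g hg fun l => (hgb l).1)
    (fun D D' i j => by
      show (∏ l, monJ true (g l) (i l)) * (∏ l, monJ true (g l) (j l)) ∈ _
      rw [← Finset.prod_mul_distrib]
      exact prod_span (fun l (t : Pool.Agent.Y113.Ex (D + D')) => monJ true (g l) t) _
        fun l => mon_mul Pool.Agent.Y120.J.hode true (g l) (i l) (j l))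
    (fun D b => by
      rw [e3]
      exact Cvc.prod _ _ fun l _ => hcvM l (b l))
    (by
      rw [e3, map_prod]
      refine Finset.prod_ne_zero_iff.2 fun l _ => Tp_ne true (g l) ?_
      have h1 := hgH l
      have h2 : (2 : ℝ) ^ 11 ≤ ((H : ℝ) + 2) ^ 11 := pow_le_pow_left₀ (by norm_num) (by linarith) 11
      have h3 : ((H : ℝ) + 2) ^ 12 ≤ ‖(ξ : ℂ)‖ := hle _ (by omega)
      have h4 : ((H : ℝ) + 2) ^ 12 = ((H : ℝ) + 2) ^ 11 * ((H : ℝ) + 2) := pow_succ _ _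
      have h5 : (2 : ℝ) ^ 11 * ((H : ℝ) + 2) ≤ ((H : ℝ) + 2) ^ 11 * ((H : ℝ) + 2) :=
        mul_le_mul_of_nonneg_right h2 (by linarith)
      have h6 : (2 : ℝ) ^ 11 * ((H : ℝ) + 2) ≤ ‖(ξ : ℂ)‖ := by
        rw [← h4] at h5
        exact h5.trans h3
      norm_num at h6
      linarith)
    (by
      rw [e3, norm_div, norm_one, div_mul_eq_mul_div, one_mul, div_le_one hξ0]
      exact hle _ (by omega))
    (by
      rw [e3, norm_div, norm_one, div_pow, one_pow, mul_one_div, div_le_one (by positivity)]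
      exact hX)
  rw [e3] at hmain
  have hLI : LinearIndependent ℚ (fun b : Fin N → Pool.Agent.Y113.Ex Δ =>
      evc (1 / (ξ : ℂ)) (∏ l, monJ true (g l) (b l))) := by
    rw [Fintype.linearIndependent_iff]
    intro c hc i
    refine congrFun (hmain c ?_) i
    rw [← hc]
    refine Finset.sum_congr rfl fun b _ => ?_
    rw [Algebra.smul_def]
    rfl
  -- the exponents
  have hdeg : ∀ m ∈ Q.support, ∑ p, m p ≤ Δ := by
    intro m hm'
    have h1 := (MvPolynomial.le_totalDegree hm').trans hQ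
    rwa [Finsupp.sum_fintype _ _ (fun _ => rfl)] at h1
  have hdl : ∀ m ∈ Q.support, ∀ l : Fin N, ∑ i : Fin 3, m (l, i) ≤ Δ := by
    intro m hm' l
    refine le_trans ?_ (hdeg m hm')
    rw [Fintype.sum_prod_type]
    exact Finset.single_le_sum (f := fun l => ∑ i : Fin 3, m (l, i)) (fun _ _ => Nat.zero_le _) (Finset.mem_univ l)
  let bs : Q.support → Fin N → Pool.Agent.Y113.Ex Δ := fun m l =>
    mkE (fun i => (m : (Fin N × Fin 3) →₀ ℕ) (l, i)) (hdl m m.2 l)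
  have hbs : Function.Injective bs := by
    intro m m' h
    apply Subtype.ext
    ext ⟨l, i⟩
    exact congrFun (mkE_inj _ _ (congrFun h l)) i
  have hLI2 := hLI.comp bs hbs
  have hval : ∀ m : Q.support, ∏ p : Fin N × Fin 3, (vC ξ (g p.1) p.2) ^ (m : (Fin N × Fin 3) →₀ ℕ) p =
      evc (1 / (ξ : ℂ)) (∏ l, monJ true (g l) (bs m l)) := by
    intro m
    rw [Cvc.ev_prod _ _ (fun l _ => hcvM l (bs m l)), Fintype.prod_prod_type]
    refine Finset.prod_congr rfl fun l _ => ?_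
    show _ = evc (1 / (ξ : ℂ)) (monJ true (g l) (mkE (fun i => (m : (Fin N × Fin 3) →₀ ℕ) (l, i)) (hdl m m.2 l)))
    rw [monJ_mkE, Cvc.ev_prod Finset.univ (fun i : Fin 3 => fJ true (g l) i.castSucc ^ (m : (Fin N × Fin 3) →₀ ℕ) (l, i))
      (fun i _ => (hcvJ l i.castSucc).pow _)]
    refine Finset.prod_congr rfl fun i _ => ?_
    rw [Cvc.ev_pow (hcvJ l i.castSucc)]
    rfl
  have hrel : ∑ m : Q.support, Q.coeff m • evc (1 / (ξ : ℂ)) (∏ l, monJ true (g l) (bs m l)) = 0 := by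
    rw [← hQ0, MvPolynomial.aeval_def, MvPolynomial.eval₂_eq', ← Finset.sum_coe_sort Q.support]
    refine Finset.sum_congr rfl fun m _ => ?_
    rw [hval m, Algebra.smul_def]
  have h2 := (Fintype.linearIndependent_iff.1 hLI2) (fun m => Q.coeff m) hrel
  by_contra hP1
  obtain ⟨m, hm'⟩ := MvPolynomial.ne_zero_iff.1 hP1
  exact hm' (h2 ⟨m, MvPolynomial.mem_support_iff.2 hm'⟩)

end Pool.Agent.J6H76.MS
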