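import Pool.Agent.J6H76.MS.WinV
import Pool.Agent.J6H76.MS.AllJ
import Pool.Agent.Y120.K.WinI

/-!
# Windows of modular invariants around algebraic numbers, with arbitrary constants
-/

set_option autoImplicit false

open Module

namespace Pool.Agent.J6H76.MS

open Pool.Agent.Y113 Pool.Agent.Y916.Al Pool.Agent.R351.GD Pool.Agent.Y120.K
open Pool.Agent.Y120.J (tpi jt)
open Pool.Agent.TH21.MS (jj)

/-! ### the numbers `z`, `j'(z)`, `j''(z)` as fractions in the values -/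

/-- `2 π i w` times `v_0` for the point `w` near the cusp -/
noncomputable def uC (T ℓ : ℂ) (n : ℤ) (v : Fin 3 → ℂ) : ℂ := ℓ * v 0 + n * (T * v 0) - v 2

noncomputable def qC (T ℓ : ℂ) (n c d : ℤ) (v : Fin 3 → ℂ) : ℂ := c * uC T ℓ n v + d * (T * v 0)

noncomputable def nC (T ℓ η : ℂ) (n a b c d : ℤ) (v : Fin 3 → ℂ) : Fin 3 → ℂ :=
  ![a * uC T ℓ n v + b * (T * v 0), -(η * qC T ℓ n c d v ^ 2),
    η * qC T ℓ n c d v ^ 3 * (qC T ℓ n c d v * (v 0 - 2 * v 1) - 2 * c)]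

noncomputable def mC (T ℓ : ℂ) (n c d : ℤ) (v : Fin 3 → ℂ) : Fin 3 → ℂ := ![qC T ℓ n c d v, T, T ^ 2 * v 0]

lemma tpi_ne : tpi ≠ 0 := by
  have h1 : (Real.pi : ℂ) ≠ 0 := by exact_mod_cast Real.pi_ne_zero
  exact mul_ne_zero (mul_ne_zero two_ne_zero h1) Complex.I_ne_zero

/-- preimages -/
lemma exists_v {T : ℂ} (hT : T ≠ 0) (ℓ : ℂ) {η : ℂ} (hη : η ≠ 0) (n : ℤ) {a b c d : ℤ} (hdet : a * d - b * c = 1)
    (u : Fin 3 → ℂ) (h1 : u 1 ≠ 0) (h0 : (a : ℂ) - c * u 0 ≠ 0) :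
    ∃ v : Fin 3 → ℂ, (∀ i, mC T ℓ n c d v i ≠ 0) ∧ ∀ i, u i = nC T ℓ η n a b c d v i / mC T ℓ n c d v i := by
  obtain ⟨Q, hQ⟩ := IsAlgClosed.exists_pow_nat_eq (-(T * u 1 / η)) (show 0 < 2 by norm_num)
  have hQ0 : Q ≠ 0 := by
    rintro rfl
    rw [zero_pow two_ne_zero] at hQ
    have h2 : T * u 1 / η ≠ 0 := div_ne_zero (mul_ne_zero hT h1) hη
    exact h2 (neg_eq_zero.1 hQ.symm)
  have hdet' : (a : ℂ) * d - b * c = 1 := by exact_mod_cast hdet
  set v0 : ℂ := Q * (a - c * u 0) / T with hv0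
  have hv0n : v0 ≠ 0 := div_ne_zero (mul_ne_zero hQ0 h0) hT
  set U : ℂ := Q * (d * u 0 - b) with hU
  set v1 : ℂ := (v0 - (2 * c + T ^ 2 * v0 * u 2 / (η * Q ^ 3)) / Q) / 2 with hv1
  set v2 : ℂ := ℓ * v0 + n * (T * v0) - U with hv2
  have hTv : T * v0 = Q * (a - c * u 0) := by
    rw [hv0]
    field_simp
  have eU : uC T ℓ n ![v0, v1, v2] = U := by
    show ℓ * v0 + n * (T * v0) - v2 = U
    rw [hv2]
    ring
  have eQ : qC T ℓ n c d ![v0, v1, v2] = Q := by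
    unfold qC
    rw [eU]
    show (c : ℂ) * U + d * (T * v0) = Q
    rw [hTv, hU]
    linear_combination Q * hdet'
  refine ⟨![v0, v1, v2], fun i => ?_, fun i => ?_⟩
  · fin_cases i
    · show qC T ℓ n c d ![v0, v1, v2] ≠ 0
      rw [eQ]
      exact hQ0
    · exact hT
    · show T ^ 2 * v0 ≠ 0
      exact mul_ne_zero (pow_ne_zero 2 hT) hv0n
  · fin_cases i
    · show u 0 = (a * uC T ℓ n ![v0, v1, v2] + b * (T * v0)) / qC T ℓ n c d ![v0, v1, v2]
      rw [eQ, eU, hTv, eq_div_iff hQ0, hU]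
      linear_combination (-(Q * u 0)) * hdet'
    · show u 1 = -(η * qC T ℓ n c d ![v0, v1, v2] ^ 2) / T
      rw [eQ, hQ, eq_div_iff hT]
      field_simp
    · show u 2 = η * qC T ℓ n c d ![v0, v1, v2] ^ 3 * (qC T ℓ n c d ![v0, v1, v2] * (v0 - 2 * v1) - 2 * c) / (T ^ 2 * v0)
      rw [eQ, eq_div_iff (mul_ne_zero (pow_ne_zero 2 hT) hv0n)]
      have h3 : Q * (v0 - 2 * v1) = 2 * c + T ^ 2 * v0 * u 2 / (η * Q ^ 3) := by
        rw [hv1]
        field_simp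
        ring
      rw [h3]
      field_simp
      ring

/-- the three numbers as fractions -/
lemma pts_v (z : UpperHalfPlane) (γ : Matrix.SpecialLinearGroup (Fin 2) ℤ) {ℓ η : ℂ} {v : Fin 3 → ℂ} (hv0 : v 0 ≠ 0)
    (e1 : deriv jj ((γ • z : UpperHalfPlane) : ℂ) = -tpi * η * v 0 ^ 2)
    (e2 : deriv (deriv jj) ((γ • z : UpperHalfPlane) : ℂ) = tpi ^ 2 * η * (v 0 ^ 4 - 2 * v 0 ^ 3 * v 1))
    {n : ℤ} (e3 : tpi * ((γ • z : UpperHalfPlane) : ℂ) = ℓ - v 2 / v 0 + n * tpi) :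
    (∀ i, mC tpi ℓ n (γ⁻¹ 1 0) (γ⁻¹ 1 1) v i ≠ 0) ∧
    ∀ i, jt z i = nC tpi ℓ η n (γ⁻¹ 0 0) (γ⁻¹ 0 1) (γ⁻¹ 1 0) (γ⁻¹ 1 1) v i / mC tpi ℓ n (γ⁻¹ 1 0) (γ⁻¹ 1 1) v i := by
  obtain ⟨-, d1, d2, d3, d4⟩ := Pool.Agent.Y508.J.t_mob γ⁻¹ (γ • z)
  rw [inv_smul_smul] at d1 d2 d3
  have hT := tpi_ne
  set w : ℂ := ((γ • z : UpperHalfPlane) : ℂ) with hw
  set a : ℤ := γ⁻¹ 0 0 with ha
  set b : ℤ := γ⁻¹ 0 1 with hb
  set c : ℤ := γ⁻¹ 1 0 with hc
  set d : ℤ := γ⁻¹ 1 1 with hd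
  set D : ℂ := (c : ℂ) * w + d with hD
  have eU : uC tpi ℓ n v = tpi * v 0 * w := by
    unfold uC
    have h1 : tpi * v 0 * w = v 0 * (tpi * w) := by ring
    rw [h1, e3]
    field_simp
    ring
  have eQ : qC tpi ℓ n c d v = tpi * v 0 * D := by
    unfold qC
    rw [eU, hD]
    ring
  have hQ0 : qC tpi ℓ n c d v ≠ 0 := by
    rw [eQ]
    exact mul_ne_zero (mul_ne_zero hT hv0) d4
  refine ⟨fun i => ?_, fun i => ?_⟩
  · fin_cases i
    · exact hQ0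
    · exact hT
    · exact mul_ne_zero (pow_ne_zero 2 hT) hv0
  · fin_cases i
    · show (z : ℂ) = (a * uC tpi ℓ n v + b * (tpi * v 0)) / qC tpi ℓ n c d v
      rw [eU, eQ, d3]
      have h2 : tpi * v 0 * D ≠ 0 := mul_ne_zero (mul_ne_zero hT hv0) d4
      rw [div_eq_div_iff d4 h2]
      ring
    · show deriv jj z = -(η * qC tpi ℓ n c d v ^ 2) / tpi
      rw [eQ, d1, e1]
      field_simp
    · show deriv (deriv jj) z = η * qC tpi ℓ n c d v ^ 3 * (qC tpi ℓ n c d v * (v 0 - 2 * v 1) - 2 * c) / (tpi ^ 2 * v 0)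
      rw [eQ, d2, e1, e2]
      field_simp
      ring

/-! ### the same as polynomials -/

section
variable {K : IntermediateField ℚ ℂ} {q k : ℕ}

noncomputable def uP (K : IntermediateField ℚ ℂ) (q : ℕ) {k : ℕ} (n : ℤ) (l : Fin k) : MvPolynomial (Vr q k) K :=
  MvPolynomial.X (Sum.inl (Sum.inr none)) * MvPolynomial.X (Sum.inr (l, 0)) +
    MvPolynomial.C (n : K) * (MvPolynomial.X (Sum.inl (Sum.inl 0)) * MvPolynomial.X (Sum.inr (l, 0))) -
    MvPolynomial.X (Sum.inr (l, 2))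

noncomputable def qP (K : IntermediateField ℚ ℂ) (q : ℕ) {k : ℕ} (n c d : ℤ) (l : Fin k) : MvPolynomial (Vr q k) K :=
  MvPolynomial.C (c : K) * uP K q n l +
    MvPolynomial.C (d : K) * (MvPolynomial.X (Sum.inl (Sum.inl 0)) * MvPolynomial.X (Sum.inr (l, 0)))

noncomputable def nP (q : ℕ) {k : ℕ} (η : K) (n a b c d : ℤ) (l : Fin k) : Fin 3 → MvPolynomial (Vr q k) K :=
  ![MvPolynomial.C (a : K) * uP K q n l +
      MvPolynomial.C (b : K) * (MvPolynomial.X (Sum.inl (Sum.inl 0)) * MvPolynomial.X (Sum.inr (l, 0))),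
    -(MvPolynomial.C η * qP K q n c d l ^ 2),
    MvPolynomial.C η * qP K q n c d l ^ 3 * (qP K q n c d l * (MvPolynomial.X (Sum.inr (l, 0)) -
      2 * MvPolynomial.X (Sum.inr (l, 1))) - MvPolynomial.C ((2 * c : ℤ) : K))]

noncomputable def mP (K : IntermediateField ℚ ℂ) (q : ℕ) {k : ℕ} (n c d : ℤ) (l : Fin k) :
    Fin 3 → MvPolynomial (Vr q k) K :=
  ![qP K q n c d l, MvPolynomial.X (Sum.inl (Sum.inl 0)),
    MvPolynomial.X (Sum.inl (Sum.inl 0)) ^ 2 * MvPolynomial.X (Sum.inr (l, 0))]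

lemma uP_eval (n : ℤ) (l : Fin k) (ℓ : ℂ) (w : Fin q → ℂ) (y : Fin k × Fin 3 → ℂ) :
    MvPolynomial.aeval (pt ℓ w y) (uP K q n l) = uC tpi ℓ n fun i => y (l, i) := by
  unfold uP uC pt
  simp only [map_sub, map_add, map_mul, MvPolynomial.aeval_X, Sum.elim_inl, Sum.elim_inr,
    Option.elim_none, map_intCast]

lemma qP_eval (n c d : ℤ) (l : Fin k) (ℓ : ℂ) (w : Fin q → ℂ) (y : Fin k × Fin 3 → ℂ) :
    MvPolynomial.aeval (pt ℓ w y) (qP K q n c d l) = qC tpi ℓ n c d fun i => y (l, i) := by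
  unfold qP qC
  rw [map_add, map_mul, uP_eval]
  unfold pt
  simp only [map_mul, MvPolynomial.aeval_X, Sum.elim_inl, Sum.elim_inr, map_intCast]

lemma nP_eval (η : K) (n a b c d : ℤ) (l : Fin k) (ℓ : ℂ) (w : Fin q → ℂ) (y : Fin k × Fin 3 → ℂ) (i : Fin 3) :
    MvPolynomial.aeval (pt ℓ w y) (nP q η n a b c d l i) = nC tpi ℓ η n a b c d (fun i => y (l, i)) i := by
  fin_cases i
  · show MvPolynomial.aeval (pt ℓ w y) (MvPolynomial.C (a : K) * uP K q n l +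
      MvPolynomial.C (b : K) * (MvPolynomial.X (Sum.inl (Sum.inl 0)) * MvPolynomial.X (Sum.inr (l, 0)))) = _
    rw [map_add, map_mul, uP_eval]
    unfold pt nC
    simp only [map_mul, MvPolynomial.aeval_X, Sum.elim_inl, Sum.elim_inr, map_intCast]
    rfl
  · show MvPolynomial.aeval (pt ℓ w y) (-(MvPolynomial.C η * qP K q n c d l ^ 2)) = _
    rw [map_neg, map_mul, map_pow, qP_eval, MvPolynomial.aeval_C]
    rfl
  · show MvPolynomial.aeval (pt ℓ w y) (MvPolynomial.C η * qP K q n c d l ^ 3 * (qP K q n c d l *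
      (MvPolynomial.X (Sum.inr (l, 0)) - 2 * MvPolynomial.X (Sum.inr (l, 1))) - MvPolynomial.C ((2 * c : ℤ) : K))) = _
    rw [map_mul, map_mul, map_pow, map_sub, map_mul, qP_eval, map_sub, map_mul, MvPolynomial.aeval_C,
      MvPolynomial.aeval_C, MvPolynomial.aeval_X, MvPolynomial.aeval_X]
    unfold pt nC
    simp only [Sum.elim_inr, map_ofNat, map_intCast]
    push_cast
    rfl

lemma mP_eval (n c d : ℤ) (l : Fin k) (ℓ : ℂ) (w : Fin q → ℂ) (y : Fin k × Fin 3 → ℂ) (i : Fin 3) :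
    MvPolynomial.aeval (pt ℓ w y) (mP K q n c d l i) = mC tpi ℓ n c d (fun i => y (l, i)) i := by
  fin_cases i
  · show MvPolynomial.aeval (pt ℓ w y) (qP K q n c d l) = _
    rw [qP_eval]
    rfl
  · show MvPolynomial.aeval (pt ℓ w y) (MvPolynomial.X (Sum.inl (Sum.inl 0)) : MvPolynomial (Vr q k) K) = _
    rw [MvPolynomial.aeval_X]
    rfl
  · show MvPolynomial.aeval (pt ℓ w y) (MvPolynomial.X (Sum.inl (Sum.inl 0)) ^ 2 * MvPolynomial.X (Sum.inr (l, 0)) :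
      MvPolynomial (Vr q k) K) = _
    rw [map_mul, map_pow, MvPolynomial.aeval_X, MvPolynomial.aeval_X]
    rfl

lemma dC {σ R : Type} [CommRing R] (r : R) : (MvPolynomial.C r : MvPolynomial σ R).totalDegree ≤ 0 := by
  rw [MvPolynomial.totalDegree_C]

lemma dpow {σ R : Type} [CommRing R] {p : MvPolynomial σ R} {a : ℕ} (hp : p.totalDegree ≤ a) (n : ℕ) :
    (p ^ n).totalDegree ≤ n * a := (MvPolynomial.totalDegree_pow _ _).trans (Nat.mul_le_mul_left _ hp)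

lemma dsub {σ R : Type} [CommRing R] {p r : MvPolynomial σ R} {a : ℕ} (hp : p.totalDegree ≤ a) (hr : r.totalDegree ≤ a) :
    (p - r).totalDegree ≤ a := (MvPolynomial.totalDegree_sub _ _).trans (max_le hp hr)

lemma dle {σ R : Type} [CommRing R] {p : MvPolynomial σ R} {a b : ℕ} (hp : p.totalDegree ≤ a) (h : a ≤ b) :
    p.totalDegree ≤ b := hp.trans h

lemma uP_deg (n : ℤ) (l : Fin k) : (uP K q n l).totalDegree ≤ 2 := by
  unfold uP
  exact dsub (dadd (dmul (dX _) (dX _)) (dle (dmul (dC _) (dmul (dX _) (dX _))) (by norm_num))) (dle (dX _) (by norm_num))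

lemma qP_deg (n c d : ℤ) (l : Fin k) : (qP K q n c d l).totalDegree ≤ 2 := by
  unfold qP
  exact dadd (dle (dmul (dC _) (uP_deg _ _)) (by norm_num)) (dle (dmul (dC _) (dmul (dX _) (dX _))) (by norm_num))

lemma nP_deg (η : K) (n a b c d : ℤ) (l : Fin k) (i : Fin 3) : (nP q η n a b c d l i).totalDegree ≤ 9 := by
  fin_cases i
  · exact dle (dadd (dle (dmul (dC _) (uP_deg n l)) (by norm_num)) (dle (dmul (dC _) (dmul (dX _) (dX _))) (by norm_num)))
      (le_refl 9)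
  · show (-(MvPolynomial.C η * qP K q n c d l ^ 2)).totalDegree ≤ 9
    rw [MvPolynomial.totalDegree_neg]
    exact dle (dmul (dC _) (dpow (qP_deg _ _ _ _) 2)) (by norm_num)
  · refine dle (dmul (dmul (dC η) (dpow (qP_deg n c d l) 3)) (dsub (a := 3) (dmul (qP_deg n c d l)
      (dsub (dX _) (dmul (a := 0) (b := 1) ?_ (dX _)))) (dle (dC _) (by norm_num)))) (by norm_num)
    have h2 : (2 : MvPolynomial (Vr q k) K) = MvPolynomial.C 2 := by
      rw [map_ofNat]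
    rw [h2]
    exact dC _

lemma mP_deg (n c d : ℤ) (l : Fin k) (i : Fin 3) : (mP K q n c d l i).totalDegree ≤ 9 := by
  fin_cases i
  · exact dle (qP_deg n c d l) (by norm_num)
  · exact dle (dX _) (by norm_num)
  · exact dle (dmul (dpow (dX _) 2) (dX _)) (by norm_num)

end

/-! ### windows -/

/-- windows of modular invariants around algebraic numbers -/
theorem winJ (q k m A : ℕ) : ∃ E : ℕ → ℕ, PB E ∧ ∀ (δ H : ℕ) (ξ : ℂ), ((H : ℝ) + 2) ^ E δ ≤ ‖ξ‖ → Ht m A ξ →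
    ∀ w : Fin q → ℂ, ∃ S : Finset ℕ, S.card ≤ q + 2 ∧
    ∀ n : Fin k → ℕ, Function.Injective n → (∀ i, 1 ≤ n i ∧ n i ≤ H ∧ n i ∉ S) →
    ∀ z : Fin k → UpperHalfPlane, (∀ i, jj (z i) = ξ + n i) →
    ∀ K : IntermediateField ℚ ℂ, FiniteDimensional ℚ K → finrank ℚ K ≤ δ →
    ∀ P : MvPolynomial (Option (Fin q) ⊕ Fin k × Fin 3) K, P.totalDegree ≤ δ →
    MvPolynomial.aeval (Sum.elim (wo w) fun v : Fin k × Fin 3 => jt (z v.1) v.2) P = 0 →
    ∀ u, MvPolynomial.aeval (Sum.elim (wo w) u) P = 0 := by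
  classical
  obtain ⟨Y, E₁, hY, hlink⟩ := link
  obtain ⟨T, hT⟩ := fd_large Y
  obtain ⟨c₀, hc₀⟩ := exists_exp T
  obtain ⟨E, hEp, hE⟩ := winV k m A (q + 2)
  refine ⟨fun δ => E ((Fintype.card (Option (Fin q)) * (δ * 9) + Fintype.card (Fin k × Fin 3) * (δ * 9)) + δ * m) +
    (E₁ + (c₀ + 4)), ?_, ?_⟩
  · exact (hEp.comp ((((PB.const _).mul (PB.id.mul (PB.const 9))).add ((PB.const _).mul (PB.id.mul (PB.const 9)))).add
      (PB.id.mul (PB.const m)))).add (PB.const _)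
  intro δ H ξ hξ hHt w
  set dd := (Fintype.card (Option (Fin q)) * (δ * 9) + Fintype.card (Fin k × Fin 3) * (δ * 9)) + δ * m with hdd
  have hH0 : (0 : ℝ) ≤ H := Nat.cast_nonneg H
  have hH : (1 : ℝ) ≤ (H : ℝ) + 2 := by linarith
  have hle : ∀ {a : ℕ}, a ≤ E dd + (E₁ + (c₀ + 4)) → ((H : ℝ) + 2) ^ a ≤ ‖ξ‖ := fun {a} ha =>
    (pow_le_pow_right₀ hH ha).trans hξ
  have h2H : 2 * ((H : ℝ) + 2) ≤ ‖ξ‖ := by
    refine le_trans ?_ (hle (a := 2) (by omega))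
    nlinarith
  have hsh := norm_shift h2H
  set ξ' : ℂ := ξ + (H + 1 : ℕ) with hξ'
  set ℓ : ℂ := Complex.log (1 / ξ') with hℓ
  obtain ⟨S, hS, hwin⟩ := hE dd H ξ (hle (by omega)) hHt (Fin 1 ⊕ Option (Fin q)) (by
    rw [Fintype.card_sum, Fintype.card_option, Fintype.card_fin, Fintype.card_fin]
    omega) (Sum.elim (fun _ : Fin 1 => tpi) fun o : Option (Fin q) => o.elim ℓ w)
  refine ⟨S.image fun g => H + 1 - g, Finset.card_image_le.trans hS, ?_⟩
  intro n hn hnb z hz K hK hKD P hPδ hP u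
  -- the shifts
  set g : Fin k → ℕ := fun i => H + 1 - n i with hg
  have hgn : ∀ i, (g i : ℂ) = (H + 1 : ℕ) - n i := by
    intro i
    have h1 := (hnb i).2.1
    rw [hg]
    show ((H + 1 - n i : ℕ) : ℂ) = _
    rw [Nat.cast_sub (by omega)]
  have hginj : Function.Injective g := by
    intro i j hij
    have h1 := (hnb i).2.1
    have h2 := (hnb j).2.1
    have h3 : H + 1 - n i = H + 1 - n j := hij
    exact hn (by omega)
  have hgb : ∀ i, 1 ≤ g i ∧ g i ≤ H ∧ g i ∉ S := by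
    intro i
    have h1 := hnb i
    have h3 : g i = H + 1 - n i := rfl
    refine ⟨by omega, by omega, fun hmem => h1.2.2 (Finset.mem_image.2 ⟨g i, hmem, by omega⟩)⟩
  have hj' : ∀ i, ξ + n i = ξ' - g i := by
    intro i
    rw [hgn i, hξ']
    ring
  -- the points of large imaginary part
  have hnorm : ∀ i, T ≤ ‖jj (z i)‖ := by
    intro i
    have h1 := hc₀ H ‖ξ‖ (hle (by omega))
    rw [hz i]
    have h2 := norm_sub_norm_le ξ (-(n i : ℂ))
    rw [norm_neg, Complex.norm_natCast, sub_neg_eq_add] at h2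
    have h3 : (n i : ℝ) ≤ H := by exact_mod_cast (hnb i).2.1
    linarith
  choose γ hγ hγj using fun i => hT (z i) (hnorm i)
  have hE₁' : ∀ i, ((g i : ℝ) + 2) ^ E₁ ≤ ‖ξ'‖ := by
    intro i
    have h1 : ((H : ℝ) + 2) ^ (E₁ + 1) ≤ ‖ξ‖ := hle (by omega)
    rw [pow_succ] at h1
    have h2 : (g i : ℝ) ≤ H := by exact_mod_cast (hgb i).2.1
    have h3 : ((g i : ℝ) + 2) ^ E₁ ≤ ((H : ℝ) + 2) ^ E₁ := pow_le_pow_left₀ (by positivity) (by linarith) _
    have h4 : ((H : ℝ) + 2) ^ E₁ * 2 ≤ ((H : ℝ) + 2) ^ E₁ * ((H : ℝ) + 2) :=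
      mul_le_mul_of_nonneg_left (by linarith) (by positivity)
    linarith
  have hl := fun i => hlink (g i) ξ' ((γ i • z i : UpperHalfPlane) : ℂ) (hE₁' i) (hγ i) (by
    rw [hγj i, hz i, hj' i])
  choose hv0 hv2 hη0 hd1 hd2 hnn using hl
  choose nn hnn using hnn
  have hpts := fun i => pts_v (z i) (γ i) (ℓ := ℓ) (η := ξ' - g i) (v := vC ξ' (g i)) (hv0 i) (hd1 i) (hd2 i) (hnn i)
  -- the field
  obtain ⟨p, hp0, hpd, hpY, hp⟩ := id hHt
  obtain ⟨K₁, ξ₁, k1, k2, k3, -⟩ := pt_root hp0 hpd hpY hp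
  set K' : IntermediateField ℚ ℂ := K ⊔ K₁ with hK'
  have hKK' : K ≤ K' := le_sup_left
  have hK'f : FiniteDimensional ℚ K' := inferInstance
  have hK'd : finrank ℚ K' ≤ δ * m :=
    (IntermediateField.finrank_sup_le _ _).trans (Nat.mul_le_mul hKD k2)
  have hξK : ξ ∈ K' := by
    have h1 : (ξ₁ : ℂ) ∈ K₁ := ξ₁.2
    rw [k3] at h1
    exact (le_sup_right : K₁ ≤ K') h1
  have hηK : ∀ i, ξ' - g i ∈ K' := by
    intro i
    rw [← hj' i]
    exact K'.add_mem hξK (K'.toSubalgebra.natCast_mem _)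
  set ι : K →+* K' := (IntermediateField.inclusion hKK' : K →+* K') with hι
  have hιP : ∀ x : Option (Fin q) ⊕ Fin k × Fin 3 → ℂ, MvPolynomial.aeval x (MvPolynomial.map ι P) =
      MvPolynomial.aeval x P := by
    intro x
    rw [MvPolynomial.aeval_def, MvPolynomial.eval₂_map, MvPolynomial.aeval_def]
    rfl
  have hP'δ : (MvPolynomial.map ι P).totalDegree ≤ δ := by
    refine le_trans (le_of_eq ?_) hPδ
    unfold MvPolynomial.totalDegree
    rw [MvPolynomial.support_map_of_injective _ ι.injective]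
  set P' := MvPolynomial.map ι P with hP'
  -- the polynomials
  set W : Option (Fin q) → MvPolynomial (Vr q k) K' := fun o => MvPolynomial.X (Sum.inl (o.elim (Sum.inl 0)
    fun l => Sum.inr (some l))) with hW
  set Np : Fin k × Fin 3 → MvPolynomial (Vr q k) K' := fun v => nP q (⟨ξ' - g v.1, hηK v.1⟩ : K') (nn v.1)
    ((γ v.1)⁻¹ 0 0) ((γ v.1)⁻¹ 0 1) ((γ v.1)⁻¹ 1 0) ((γ v.1)⁻¹ 1 1) v.1 v.2 with hNp
  set Mp : Fin k × Fin 3 → MvPolynomial (Vr q k) K' := fun v => mP K' q (nn v.1) ((γ v.1)⁻¹ 1 0) ((γ v.1)⁻¹ 1 1) v.1 v.2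
    with hMp
  have hNe : ∀ (y : Fin k × Fin 3 → ℂ) v, MvPolynomial.aeval (pt ℓ w y) (Np v) =
      nC tpi ℓ (ξ' - g v.1) (nn v.1) ((γ v.1)⁻¹ 0 0) ((γ v.1)⁻¹ 0 1) ((γ v.1)⁻¹ 1 0) ((γ v.1)⁻¹ 1 1)
        (fun i => y (v.1, i)) v.2 := fun y v => nP_eval _ _ _ _ _ _ _ _ _ _ _
  have hMe : ∀ (y : Fin k × Fin 3 → ℂ) v, MvPolynomial.aeval (pt ℓ w y) (Mp v) =
      mC tpi ℓ (nn v.1) ((γ v.1)⁻¹ 1 0) ((γ v.1)⁻¹ 1 1) (fun i => y (v.1, i)) v.2 := fun y v => mP_eval _ _ _ _ _ _ _ _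
  have hWe : ∀ y : Fin k × Fin 3 → ℂ, (fun a => MvPolynomial.aeval (pt ℓ w y) (W a)) = wo w := by
    intro y
    funext a
    rw [hW]
    show MvPolynomial.aeval _ (MvPolynomial.X _) = _
    rw [MvPolynomial.aeval_X]
    rcases a with _ | a <;> rfl
  have hdeg : (clr δ W Np Mp P').totalDegree ≤ dd := by
    refine (clr_deg (e := 9) hP'δ (fun a => (dX _).trans (by norm_num)) (fun v => nP_deg _ _ _ _ _ _ _ _)
      fun v => mP_deg _ _ _ _ _).trans (Nat.le_add_right _ _)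
  -- it vanishes at the values
  have hzero : MvPolynomial.aeval (pt ℓ w fun a : Fin k × Fin 3 => vC ξ' (g a.1) a.2) (clr δ W Np Mp P') = 0 := by
    rw [clr_eval hP'δ, hWe]
    · have e1 : (fun b : Fin k × Fin 3 => MvPolynomial.aeval (pt ℓ w fun a : Fin k × Fin 3 => vC ξ' (g a.1) a.2) (Np b) /
          MvPolynomial.aeval (pt ℓ w fun a : Fin k × Fin 3 => vC ξ' (g a.1) a.2) (Mp b)) = fun v => jt (z v.1) v.2 := by
        funext v
        rw [hNe, hMe]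
        exact ((hpts v.1).2 v.2).symm
      rw [e1, hιP, hP, mul_zero]
    · intro b
      rw [hMe]
      exact (hpts b.1).1 b.2
  have hall : ∀ y : Fin k × Fin 3 → ℂ, MvPolynomial.aeval (pt ℓ w y) (clr δ W Np Mp P') = 0 :=
    fun y => hwin g hginj hgb K' hK'f (hK'd.trans (Nat.le_add_left _ _)) _ hdeg hzero y
  -- the substitution of the constants
  let p' : MvPolynomial (Fin k × Fin 3) ℂ := MvPolynomial.aeval
    (Sum.elim (fun o => MvPolynomial.C (wo w o)) MvPolynomial.X) P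
  have hp' : ∀ u, MvPolynomial.eval u p' = MvPolynomial.aeval (Sum.elim (wo w) u) P := by
    intro u
    have h2 : ((MvPolynomial.aeval u : MvPolynomial (Fin k × Fin 3) ℂ →ₐ[ℂ] ℂ).restrictScalars K).comp
        (MvPolynomial.aeval (Sum.elim (fun o => MvPolynomial.C (wo w o)) MvPolynomial.X) :
          MvPolynomial (Option (Fin q) ⊕ Fin k × Fin 3) K →ₐ[K] MvPolynomial (Fin k × Fin 3) ℂ)
        = MvPolynomial.aeval (Sum.elim (wo w) u) := by
      apply MvPolynomial.algHom_ext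
      intro v
      rw [AlgHom.comp_apply, MvPolynomial.aeval_X, MvPolynomial.aeval_X, AlgHom.restrictScalars_apply]
      rcases v with o | v
      · rw [Sum.elim_inl, Sum.elim_inl, MvPolynomial.aeval_C]
        rfl
      · rw [Sum.elim_inr, Sum.elim_inr, MvPolynomial.aeval_X]
    rw [← h2, AlgHom.comp_apply, AlgHom.restrictScalars_apply]
    rfl
  have hdet : ∀ j, (γ j)⁻¹ 0 0 * (γ j)⁻¹ 1 1 - (γ j)⁻¹ 0 1 * (γ j)⁻¹ 1 0 = 1 := by
    intro j
    have h1 := ((γ j)⁻¹).det_coe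
    rw [Matrix.det_fin_two] at h1
    exact h1
  have hp0' : p' = 0 := by
    refine dense_zero (a := fun j => (γ j)⁻¹ 0 0) (c := fun j => (γ j)⁻¹ 1 0) (fun j => ?_) fun u hu => ?_
    · by_contra hcon
      push Not at hcon
      have h1 := hdet j
      rw [hcon.1, hcon.2] at h1
      simp at h1
    · rw [hp']
      have hpre := fun j => exists_v tpi_ne ℓ (hη0 j) (nn j) (hdet j) (fun i => u (j, i)) (hu j).1 (hu j).2
      choose v hv1 hv2 using hpre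
      have h5 := hall fun a => v a.1 a.2
      rw [clr_eval hP'δ _ fun b => by rw [hMe]; exact hv1 b.1 b.2, hWe] at h5
      have e1 : (fun b : Fin k × Fin 3 => MvPolynomial.aeval (pt ℓ w fun a : Fin k × Fin 3 => v a.1 a.2) (Np b) /
          MvPolynomial.aeval (pt ℓ w fun a : Fin k × Fin 3 => v a.1 a.2) (Mp b)) = u := by
        funext b
        rw [hNe, hMe]
        exact (hv2 b.1 b.2).symm
      rw [e1, hιP] at h5
      refine (mul_eq_zero.1 h5).resolve_left ?_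
      refine Finset.prod_ne_zero_iff.2 fun b _ => pow_ne_zero _ ?_
      rw [hMe]
      exact hv1 b.1 b.2
  rw [← hp' u, hp0', map_zero]

end Pool.Agent.J6H76.MS
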