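import Pool.Agent.J6H76.MS.Free

/-!
# The values of the modular G-functions at the tuples of a window, at algebraic points, relative to arbitrary constants
-/

set_option autoImplicit false

open Module PowerSeries

namespace Pool.Agent.J6H76.MS

open Pool.Agent.Y113 Pool.Agent.Y916 Pool.Agent.Y916.AW Pool.Agent.Y916.Al Pool.Agent.Y916.Sl Pool.Agent.R351.GD Pool.Agent.J6H76.EW

/-- windows with arbitrary constants for the values themselves -/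
theorem windowC {σ : Type} [Fintype σ] [DecidableEq σ] (val : ℂ → ℕ → σ → ℂ) (hval : InpE val) (r m τ A : ℕ) :
    ∃ E : ℕ → ℕ, PB E ∧ ∀ (δ H : ℕ) (K₁ : IntermediateField ℚ ℂ) (ξ : K₁) (X : ℝ), FiniteDimensional ℚ K₁ →
      finrank ℚ K₁ ≤ m → Al.Pt K₁ ξ X → ((H : ℝ) + 2) ^ E δ ≤ ‖(ξ : ℂ)‖ → X ≤ ‖(ξ : ℂ)‖ ^ A →
        ∀ (υ : Type) [Fintype υ], Fintype.card υ = τ → ∀ w : υ → ℂ, ∃ S : Finset ℕ, S.card ≤ τ ∧
        ∀ g : Fin r → ℕ, Function.Injective g → (∀ i, 1 ≤ g i ∧ g i ≤ H ∧ g i ∉ S) →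
        ∀ K : IntermediateField ℚ ℂ, FiniteDimensional ℚ K → finrank ℚ K ≤ δ →
        ∀ P : MvPolynomial (υ ⊕ Fin r × σ) K, P.totalDegree ≤ δ →
          MvPolynomial.aeval (Sum.elim w fun p : Fin r × σ => val ξ (g p.1) p.2) P = 0 →
          ∀ y, MvPolynomial.aeval (Sum.elim w y) P = 0 := by
  classical
  obtain ⟨Ev, hEvp, hEv⟩ := inpE_I hval m A
  obtain ⟨E₂, hE₂p, hE₂⟩ := winF_exp Ev hEvp (σ := σ) r 1 τ 1 1
  refine ⟨E₂, hE₂p, fun δ H K₁ ξ X hK₁f hK₁d hPt hξ hXξ υ _ hυ w => ?_⟩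
  set i : PtI m A := ⟨K₁, ξ, X, hK₁f, hK₁d, hPt, hXξ⟩ with hi
  have hsize : (H + 2) ^ E₂ δ ≤ i.size := Nat.le_floor (by push_cast; exact hξ)
  obtain ⟨S, hS, hwin⟩ := hE₂ δ ℂ (PtI m A) PtI.size _ hEv H i hsize υ w Finset.univ (by
      rw [Finset.card_univ, hυ]) (Om.Dom.univ _) ⊥ inferInstance (by rw [IntermediateField.finrank_bot])
  refine ⟨S, hS, fun g hg hgb K hKf hKd P hPd hPv y => ?_⟩
  have h9 := hwin g hg hgb (fun p => val ξ (g p.1) p.2) (fun p => ⟨1, one_ne_zero, by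
      change val ξ (g p.1) p.2 - (1 : ℂ) * val ξ (g p.1) p.2 ∈ _
      rw [one_mul, sub_self]
      exact zero_mem _⟩) K hKf hKd (fun p : Fin r × σ => val ξ (g p.1) p.2) (fun p => ⟨1, one_ne_zero, by
      change val ξ (g p.1) p.2 - (1 : ℂ) * val ξ (g p.1) p.2 ∈ _
      rw [one_mul, sub_self]
      exact zero_mem _⟩) P hPd hPv
  have h10 := congrArg (MvPolynomial.eval y) h9
  rw [map_zero] at h10
  rw [← h10]
  have h2 : ((MvPolynomial.aeval y : MvPolynomial (Fin r × σ) ℂ →ₐ[ℂ] ℂ).restrictScalars K).comp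
      (MvPolynomial.aeval (Sum.elim (fun j => MvPolynomial.C (w j)) MvPolynomial.X) :
        MvPolynomial (υ ⊕ Fin r × σ) K →ₐ[K] MvPolynomial (Fin r × σ) ℂ)
      = MvPolynomial.aeval (Sum.elim w y) := by
    apply MvPolynomial.algHom_ext
    intro v
    rw [AlgHom.comp_apply, MvPolynomial.aeval_X, MvPolynomial.aeval_X, AlgHom.restrictScalars_apply]
    rcases v with o | v
    · rw [Sum.elim_inl, Sum.elim_inl, MvPolynomial.aeval_C]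
      rfl
    · rw [Sum.elim_inr, Sum.elim_inr, MvPolynomial.aeval_X]
  rw [← h2, AlgHom.comp_apply, AlgHom.restrictScalars_apply]
  rfl

/-- the values at the tuples of a window satisfy no relations over arbitrary constants -/
theorem winV (r m A τ : ℕ) : ∃ E : ℕ → ℕ, PB E ∧ ∀ (δ H : ℕ) (ξ : ℂ), ((H : ℝ) + 2) ^ E δ ≤ ‖ξ‖ → Ht m A ξ →
    ∀ (υ : Type) [Fintype υ], Fintype.card υ = τ → ∀ w : υ → ℂ, ∃ S : Finset ℕ, S.card ≤ τ ∧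
    ∀ g : Fin r → ℕ, Function.Injective g → (∀ i, 1 ≤ g i ∧ g i ≤ H ∧ g i ∉ S) →
    ∀ K : IntermediateField ℚ ℂ, FiniteDimensional ℚ K → finrank ℚ K ≤ δ →
    ∀ P : MvPolynomial (υ ⊕ Fin r × Fin 3) K, P.totalDegree ≤ δ →
      MvPolynomial.aeval (Sum.elim w fun x : Fin r × Fin 3 => vC (ξ + (H + 1 : ℕ)) (g x.1) x.2) P = 0 →
      ∀ y, MvPolynomial.aeval (Sum.elim w y) P = 0 := by
  classical
  obtain ⟨E, hEp, hE⟩ := windowC vC inpJ r m τ (4 * A + 6)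
  refine ⟨fun δ => E δ + 2, hEp.add (PB.const 2), fun δ H ξ hξ hHt => ?_⟩
  have hH0 : (0 : ℝ) ≤ H := Nat.cast_nonneg H
  have hH : (1 : ℝ) ≤ (H : ℝ) + 2 := by linarith
  have hξ' : ((H : ℝ) + 2) ^ E δ * ((H : ℝ) + 2) ^ 2 ≤ ‖ξ‖ := by
    rw [← pow_add]
    exact hξ
  have h1E : (1 : ℝ) ≤ ((H : ℝ) + 2) ^ E δ := one_le_pow₀ hH
  have hHξ : 2 * ((H : ℝ) + 2) ≤ ‖ξ‖ := by nlinarith
  have hcast : (((H + 1 : ℕ) : ℂ)) = (H : ℂ) + 1 := by push_cast; rfl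
  have hnc : ‖(((H + 1 : ℕ) : ℂ))‖ = (H : ℝ) + 1 := by
    rw [Complex.norm_natCast]
    push_cast
    rfl
  have hn1 : ‖ξ‖ - ((H : ℝ) + 1) ≤ ‖ξ + (H + 1 : ℕ)‖ := by
    have h1 := norm_sub_norm_le ξ (-(((H + 1 : ℕ) : ℂ)))
    rw [norm_neg, hnc, sub_neg_eq_add] at h1
    exact h1
  have hn2 : ‖ξ‖ ≤ 2 * ‖ξ + (H + 1 : ℕ)‖ := by linarith
  have hn3 : (2 : ℝ) ≤ ‖ξ + (H + 1 : ℕ)‖ := by linarith
  have hn4 : ((H : ℝ) + 2) ^ E δ ≤ ‖ξ + (H + 1 : ℕ)‖ := by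
    have h2 : ((H : ℝ) + 2) ^ E δ * 4 ≤ ((H : ℝ) + 2) ^ E δ * ((H : ℝ) + 2) ^ 2 :=
      mul_le_mul_of_nonneg_left (by nlinarith) (by positivity)
    linarith
  intro υ _ hυ w
  obtain ⟨p, hp0, hpd, hpY, hp⟩ := hHt
  obtain ⟨K₁, ξ', h1, h2, h3, h4⟩ := pt_root hp0 hpd hpY hp
  have h5 := pt_shift h4 (H + 1)
  have e1 : ((ξ' + ((H + 1 : ℕ) : K₁) : K₁) : ℂ) = ξ + (H + 1 : ℕ) := by
    push_cast
    rw [h3]
  have h6 := hE δ H K₁ (ξ' + ((H + 1 : ℕ) : K₁)) _ h1 h2 h5 (by rw [e1]; exact hn4) (by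
    rw [e1]
    have hA1 : (1 : ℝ) ≤ ‖ξ‖ ^ A := one_le_pow₀ (by linarith)
    have hξ2 : (2 : ℝ) ≤ ‖ξ‖ := by linarith
    have q1 : (((H + 1 : ℕ) : ℝ) + 1) * (‖ξ‖ ^ A * (‖ξ‖ ^ A + 2)) ≤ ‖ξ‖ ^ (2 * A + 3) := by
      have q2 : ‖ξ‖ ^ A * (‖ξ‖ ^ A + 2) ≤ ‖ξ‖ ^ A * (‖ξ‖ ^ A * ‖ξ‖ ^ 2) := by
        refine mul_le_mul_of_nonneg_left ?_ (by positivity)
        have h6 : (4 : ℝ) ≤ ‖ξ‖ ^ 2 := by nlinarith
        have h7 : ‖ξ‖ ^ A * 4 ≤ ‖ξ‖ ^ A * ‖ξ‖ ^ 2 := mul_le_mul_of_nonneg_left h6 (by positivity)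
        linarith
      have q3 : (((H + 1 : ℕ) : ℝ) + 1) ≤ ‖ξ‖ := by
        push_cast
        linarith
      calc (((H + 1 : ℕ) : ℝ) + 1) * (‖ξ‖ ^ A * (‖ξ‖ ^ A + 2)) ≤ ‖ξ‖ * (‖ξ‖ ^ A * (‖ξ‖ ^ A * ‖ξ‖ ^ 2)) :=
            mul_le_mul q3 q2 (by positivity) (by positivity)
        _ = ‖ξ‖ ^ (2 * A + 3) := by ring
    refine q1.trans ?_
    have hb : ‖ξ‖ ≤ ‖ξ + (H + 1 : ℕ)‖ ^ 2 := by nlinarith
    calc ‖ξ‖ ^ (2 * A + 3) ≤ (‖ξ + (H + 1 : ℕ)‖ ^ 2) ^ (2 * A + 3) := pow_le_pow_left₀ (norm_nonneg _) hb _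
      _ = ‖ξ + (H + 1 : ℕ)‖ ^ (4 * A + 6) := by
        rw [← pow_mul]
        congr 1
        ring) υ hυ w
  rw [e1] at h6
  exact h6

end Pool.Agent.J6H76.MS
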